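import Mathlib

/-!
# Abelianisation data of finitely generated groups
-/

set_option autoImplicit false

namespace Pool.Agent.H11.Grid

open scoped DirectSum

theorem exists_data_comm.{v} (A₀ : Type v) [AddCommGroup A₀] [AddGroup.FG A₀] :
    ∃ (m r : ℕ) (χ : Fin r → A₀ →+ ℤ) (b : Fin r → A₀), m ≠ 0 ∧
      ∀ x, (m : ℤ) • x = (m : ℤ) • ∑ a, χ a x • b a := by
  classical
  obtain ⟨n, ι, hι, p, hp, e, ⟨f⟩⟩ := AddCommGroup.equiv_free_prod_directSum_zmod A₀
  let m : ℕ := ∏ i, p i ^ e i
  have hm : m ≠ 0 := Finset.prod_ne_zero_iff.2 (fun i _ => pow_ne_zero _ (hp i).ne_zero)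
  refine ⟨m, n, fun a => ((Finsupp.applyAddHom a).comp (AddMonoidHom.fst _ _)).comp f.toAddMonoidHom,
    fun a => f.symm (Finsupp.single a 1, 0), hm, fun x => ?_⟩
  apply f.injective
  rw [map_zsmul, map_zsmul, map_sum]
  have h1 : ∀ a, f ((((Finsupp.applyAddHom a).comp (AddMonoidHom.fst _ _)).comp f.toAddMonoidHom) x •
      f.symm (Finsupp.single a 1, 0)) = (Finsupp.single a ((f x).1 a), 0) := by
    intro a
    rw [map_zsmul, AddEquiv.apply_symm_apply]
    ext
    · simp
    · simp
  rw [Finset.sum_congr rfl (fun a _ => h1 a)]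
  have h2 : ∑ a, ((Finsupp.single a ((f x).1 a), 0) : (Fin n →₀ ℤ) × ⨁ i : ι, ZMod (p i ^ e i)) =
      ((f x).1, 0) := by
    rw [Prod.ext_iff]
    constructor
    · rw [Prod.fst_sum]
      exact Finsupp.univ_sum_single (f x).1
    · rw [Prod.snd_sum]
      simp
  rw [h2]
  rw [Prod.ext_iff]
  constructor
  · simp
  · simp only [Prod.smul_snd, smul_zero]
    ext i
    rw [DirectSum.smul_apply, DirectSum.zero_apply]
    have : ((m : ℤ) : ZMod (p i ^ e i)) = 0 := by
      rw [ZMod.intCast_zmod_eq_zero_iff_dvd]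
      exact_mod_cast Finset.dvd_prod_of_mem (fun i => p i ^ e i) (Finset.mem_univ i)
    rw [zsmul_eq_mul, this, zero_mul]

theorem exists_data.{v, w} (V : Type v) [Group V] [Group.FG V] :
    ∃ (m r : ℕ) (χ : Fin r → V →* Multiplicative ℤ) (b : Fin r → V), m ≠ 0 ∧ r ≠ 0 ∧
      ∀ (A : Type w) [AddCommGroup A] (f : V →* Multiplicative A) (v : V),
        (m : ℤ) • (f v).toAdd = (m : ℤ) • ∑ a, (χ a v).toAdd • (f (b a)).toAdd := by
  have hfg : Group.FG (Abelianization V) :=
    Group.fg_of_surjective (f := Abelianization.of) (QuotientGroup.mk_surjective (s := commutator V))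
  have hfg' : AddGroup.FG (Additive (Abelianization V)) := inferInstance
  obtain ⟨m, r, χ, b, hm, h⟩ := exists_data_comm (Additive (Abelianization V))
  choose c hc using fun a => QuotientGroup.mk_surjective (s := commutator V) (b a).toMul
  refine ⟨m, r + 1, Fin.cons 1 (fun a => (AddMonoidHom.toMultiplicativeRight (χ a)).comp
    Abelianization.of), Fin.cons 1 c, hm, by omega, fun A _ f v => ?_⟩
  rw [Fin.sum_univ_succ]
  simp only [Fin.cons_zero, MonoidHom.one_apply, toAdd_one, zero_smul, zero_add, Fin.cons_succ]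
  let g : Abelianization V →* Multiplicative A := Abelianization.lift f
  let g' : Additive (Abelianization V) →+ A := MonoidHom.toAdditiveLeft g
  have hg : ∀ v, g' (Additive.ofMul (Abelianization.of v)) = (f v).toAdd := fun v => rfl
  have h1 := h (Additive.ofMul (Abelianization.of v))
  have h2 := congrArg g' h1
  rw [map_zsmul, map_zsmul, map_sum, hg] at h2
  rw [h2]
  congr 1
  apply Finset.sum_congr rfl
  intro a _
  rw [map_zsmul]
  congr 1
  have : b a = Additive.ofMul (Abelianization.of (c a)) := by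
    have := hc a
    exact congrArg Additive.ofMul this.symm
  rw [this, hg]

end Pool.Agent.H11.Grid
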