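import Pool.Agent.H11.QVDefs

/-!
# Quasivarieties of groups

Basic definitions (quasi-identities, quasivarieties) and closure properties.
-/

set_option autoImplicit false

universe u

namespace Pool.Agent.H11.QV

theorem hom_lift {α : Type*} {G H : Type*} [Group G] [Group H] (f : G →* H) (x : α → G)
    (w : FreeGroup α) : f (FreeGroup.lift x w) = FreeGroup.lift (f ∘ x) w := by
  have : (f.comp (FreeGroup.lift x)) = FreeGroup.lift (f ∘ x) := by
    apply FreeGroup.ext_hom
    intro a
    simp
  rw [← this]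
  rfl

theorem QuasiIdentity.Holds.of_injective {φ : QuasiIdentity} {G H : Type*} [Group G] [Group H]
    (f : G →* H) (hf : Function.Injective f) (h : φ.Holds H) : φ.Holds G := by
  intro x hx
  apply hf
  rw [hom_lift, map_one]
  apply h
  intro w hw
  rw [← hom_lift, hx w hw, map_one]

theorem QuasiIdentity.Holds.pi {φ : QuasiIdentity} {ι : Type*} {G : ι → Type*}
    [∀ i, Group (G i)] (h : ∀ i, φ.Holds (G i)) : φ.Holds (∀ i, G i) := by
  intro x hx
  funext i
  have := h i (fun j => x j i)
  have key : ∀ w : FreeGroup (Fin φ.n), (FreeGroup.lift x w) i =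
      FreeGroup.lift (fun j => x j i) w := by
    intro w
    have := hom_lift (Pi.evalMonoidHom G i) x w
    exact this
  rw [key]
  apply this
  intro w hw
  rw [← key, hx w hw]
  rfl

theorem QuasiIdentity.Holds.of_subsingleton {φ : QuasiIdentity} {G : Type*} [Group G]
    [Subsingleton G] : φ.Holds G := fun _ _ => Subsingleton.elim _ _

namespace Quasivariety

variable {X Y Z : Quasivariety.{u}}

theorem mem_of_injective {G H : Type u} [Group G] [Group H]
    (f : G →* H) (hf : Function.Injective f) (h : X.Mem H) : X.Mem G := by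
  obtain ⟨Φ, hΦ⟩ := X.axiomatised
  rw [hΦ] at h ⊢
  exact fun φ hφ => (h φ hφ).of_injective f hf

theorem mem_congr {G H : Type u} [Group G] [Group H] (e : G ≃* H) : X.Mem G ↔ X.Mem H :=
  ⟨fun h => mem_of_injective e.symm.toMonoidHom e.symm.injective h,
   fun h => mem_of_injective e.toMonoidHom e.injective h⟩

theorem mem_pi {ι : Type u} {G : ι → Type u} [∀ i, Group (G i)] (h : ∀ i, X.Mem (G i)) :
    X.Mem (∀ i, G i) := by
  obtain ⟨Φ, hΦ⟩ := X.axiomatised
  rw [hΦ]
  intro φ hφ
  apply QuasiIdentity.Holds.pi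
  intro i
  exact (hΦ _).1 (h i) φ hφ

theorem mem_pi' {ι : Type*} {G : ι → Type u} [∀ i, Group (G i)]
    {H : Type u} [Group H] (f : H →* (∀ i, G i)) (hf : Function.Injective f)
    (h : ∀ i, X.Mem (G i)) : X.Mem H := by
  obtain ⟨Φ, hΦ⟩ := X.axiomatised
  rw [hΦ]
  intro φ hφ
  apply QuasiIdentity.Holds.of_injective f hf
  apply QuasiIdentity.Holds.pi
  intro i
  exact (hΦ _).1 (h i) φ hφ

theorem mem_of_subsingleton {G : Type u} [Group G] [Subsingleton G] : X.Mem G := by
  obtain ⟨Φ, hΦ⟩ := X.axiomatised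
  rw [hΦ]
  intro φ _
  exact QuasiIdentity.Holds.of_subsingleton

theorem mem_prod {G H : Type u} [Group G] [Group H] (hG : X.Mem G) (hH : X.Mem H) :
    X.Mem (G × H) := by
  let F : Bool → Type u := fun b => cond b G H
  letI : ∀ b, Group (F b) := fun b => by cases b <;> simp only [F, cond] <;> infer_instance
  have hF : ∀ b, X.Mem (F b) := by
    intro b
    cases b
    · exact hH
    · exact hG
  let f : G × H →* (∀ b, F b) :=
    { toFun := fun p b => match b with
        | true => p.1
        | false => p.2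
      map_one' := by funext b; cases b <;> rfl
      map_mul' := by intro x y; funext b; cases b <;> rfl }
  apply mem_pi' f _ hF
  intro x y hxy
  have h1 := congrFun hxy true
  have h2 := congrFun hxy false
  exact Prod.ext h1 h2

/-- Extensionality through membership. -/
theorem ext_mem (h : ∀ (G : Type u) [Group G], X.Mem G ↔ Y.Mem G) : X = Y := by
  apply Quasivariety.ext
  funext G inst
  exact propext (h G)

/-- A quasivariety is determined by its finitely generated members. -/
theorem mem_of_fg {G : Type u} [Group G]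
    (h : ∀ K : Subgroup G, K.FG → X.Mem K) : X.Mem G := by
  obtain ⟨Φ, hΦ⟩ := X.axiomatised
  rw [hΦ]
  intro φ hφ x hx
  let K : Subgroup G := Subgroup.closure (Set.range x)
  have hK : K.FG := by
    rw [Subgroup.fg_iff]
    exact ⟨Set.range x, rfl, Set.finite_range x⟩
  have hmem : ∀ i, x i ∈ K := fun i => Subgroup.subset_closure ⟨i, rfl⟩
  have h1 := (hΦ _).1 (h K hK) φ hφ (fun i => ⟨x i, hmem i⟩)
  have key : ∀ w : FreeGroup (Fin φ.n),
      ((FreeGroup.lift (fun i => (⟨x i, hmem i⟩ : K)) w : K) : G) = FreeGroup.lift x w := by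
    intro w
    exact hom_lift K.subtype _ w
  have h2 := h1 (by
    intro w hw
    apply Subtype.ext
    rw [key, hx w hw]
    rfl)
  rw [← key, h2]
  rfl

end Quasivariety

/-! ### Local embeddings -/

/-- The map `θ` is multiplicative on the finite set `E`. -/
def MulOn {G H : Type*} [Group G] [Group H] (θ : G → H) (E : Finset G) : Prop :=
  ∀ a ∈ E, ∀ b ∈ E, θ (a * b) = θ a * θ b

theorem MulOn.mono {G H : Type*} [Group G] [Group H] {θ : G → H} {E F : Finset G}
    (h : MulOn θ F) (hEF : E ⊆ F) : MulOn θ E :=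
  fun a ha b hb => h a (hEF ha) b (hEF hb)

theorem MulOn.one {G H : Type*} [Group G] [Group H] {θ : G → H} {E : Finset G}
    (h : MulOn θ E) (h1 : 1 ∈ E) : θ 1 = 1 := by
  have := h 1 h1 1 h1
  rw [mul_one] at this
  exact (mul_eq_left.1 this.symm)

theorem MulOn.inv {G H : Type*} [Group G] [Group H] {θ : G → H} {E : Finset G}
    (h : MulOn θ E) (h1 : 1 ∈ E) {a : G} (ha : a ∈ E) (ha' : a⁻¹ ∈ E) :
    θ a⁻¹ = (θ a)⁻¹ := by
  have h2 := h a ha a⁻¹ ha'
  rw [mul_inv_cancel, h.one h1] at h2
  exact (inv_eq_of_mul_eq_one_right h2.symm).symm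

/-- Word values are respected by maps that are multiplicative on a large enough finite set. -/
theorem exists_eval {α : Type*} {G : Type*} [Group G] (x : α → G) (w : FreeGroup α) :
    ∃ E : Finset G, ∀ (H : Type u) [Group H] (θ : G → H), MulOn θ E →
      FreeGroup.lift (θ ∘ x) w = θ (FreeGroup.lift x w) := by
  classical
  induction w using FreeGroup.induction_on with
  | C1 =>
    refine ⟨{1}, fun H _ θ hθ => ?_⟩
    rw [map_one, map_one, hθ.one (by simp)]
  | of a =>
    refine ⟨∅, fun H _ θ hθ => ?_⟩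
    simp
  | inv_of a _ =>
    refine ⟨{1, x a, (x a)⁻¹}, fun H _ θ hθ => ?_⟩
    simp only [map_inv, FreeGroup.lift_apply_of, Function.comp_apply]
    rw [hθ.inv (by simp) (by simp) (by simp)]
  | mul a b ha hb =>
    obtain ⟨E1, h1⟩ := ha
    obtain ⟨E2, h2⟩ := hb
    refine ⟨E1 ∪ E2 ∪ {FreeGroup.lift x a, FreeGroup.lift x b}, fun H _ θ hθ => ?_⟩
    rw [map_mul, map_mul, h1 H θ (hθ.mono (by
      intro y hy; simp [hy])), h2 H θ (hθ.mono (by intro y hy; simp [hy]))]
    rw [hθ _ (by simp) _ (by simp)]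

theorem exists_eval_list {α : Type*} {G : Type*} [Group G] (x : α → G)
    (L : List (FreeGroup α)) :
    ∃ E : Finset G, ∀ (H : Type u) [Group H] (θ : G → H), MulOn θ E →
      ∀ w ∈ L, FreeGroup.lift (θ ∘ x) w = θ (FreeGroup.lift x w) := by
  classical
  induction L with
  | nil => exact ⟨∅, fun H _ θ _ w hw => by simp at hw⟩
  | cons a L ih =>
    obtain ⟨E1, h1⟩ := ih
    obtain ⟨E2, h2⟩ := exists_eval.{u} x a
    refine ⟨E1 ∪ E2, fun H _ θ hθ w hw => ?_⟩
    rcases List.mem_cons.1 hw with rfl | hw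
    · exact h2 H θ (hθ.mono (by intro y hy; simp [hy]))
    · exact h1 H θ (hθ.mono (by intro y hy; simp [hy])) w hw

/-- `G` is locally embeddable into the class `C`. -/
def LE (C : (G : Type u) → [Group G] → Prop) (G : Type u) [Group G] : Prop :=
  ∀ E : Finset G, ∃ (K : Type u) (_ : Group K), C K ∧
    ∃ θ : G → K, MulOn θ E ∧ Set.InjOn θ (E : Set G)

/-- Quasi-identities pass to locally embeddable groups. -/
theorem LE.holds {C : (G : Type u) → [Group G] → Prop} {φ : QuasiIdentity}
    (hC : ∀ (K : Type u) [Group K], C K → φ.Holds K) {G : Type u} [Group G] (hG : LE C G) :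
    φ.Holds G := by
  classical
  intro x hx
  by_contra hne
  obtain ⟨E1, h1⟩ := exists_eval_list.{u} x (φ.concl :: φ.prem)
  obtain ⟨K, hK, hCK, θ, hθ, hinj⟩ := hG (E1 ∪ {1, FreeGroup.lift x φ.concl})
  have hθ1 : MulOn θ E1 := hθ.mono (by intro y hy; simp [hy])
  have hev := h1 K θ hθ1
  have hone : θ 1 = 1 := hθ.one (by simp)
  have := hC K hCK (θ ∘ x) (by
    intro w hw
    rw [hev w (by simp [hw]), hx w hw, hone])
  rw [hev φ.concl (by simp)] at this
  apply hne
  apply hinj (by simp) (by simp)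
  rw [this, hone]

theorem LE.mono {C D : (G : Type u) → [Group G] → Prop}
    (h : ∀ (K : Type u) [Group K], C K → D K) {G : Type u} [Group G] (hG : LE C G) : LE D G := by
  intro E
  obtain ⟨K, hK, hCK, hθ⟩ := hG E
  exact ⟨K, hK, h K hCK, hθ⟩

theorem LE.mem {X : Quasivariety.{u}} {G : Type u} [Group G] (hG : LE X.Mem G) : X.Mem G := by
  obtain ⟨Φ, hΦ⟩ := X.axiomatised
  rw [hΦ]
  intro φ hφ
  exact hG.holds (fun K _ hK => (hΦ K).1 hK φ hφ)

/-- If all quasi-identities of a class `C` closed under finite products hold in `G`, then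
`G` is locally embeddable into `C`. -/
theorem LE.of_holds {C : (G : Type u) → [Group G] → Prop}
    (hfin : ∀ (n : ℕ) (K : Fin n → Type u) [∀ i, Group (K i)], (∀ i, C (K i)) →
      C (∀ i, K i))
    {G : Type u} [Group G]
    (h : ∀ φ : QuasiIdentity, (∀ (K : Type u) [Group K], C K → φ.Holds K) → φ.Holds G) :
    LE C G := by
  classical
  intro E
  -- the variables are the elements of `E2`
  let E2 : Finset G := E ∪ (E ×ˢ E).image (fun p => p.1 * p.2)
  let e : E2 ≃ Fin (Fintype.card E2) := Fintype.equivFin E2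
  let n := Fintype.card E2
  let x : Fin n → G := fun i => (e.symm i : G)
  have hxe : ∀ (g : G) (hg : g ∈ E2), x (e ⟨g, hg⟩) = g := by
    intro g hg; simp [x]
  -- variable attached to an element
  let var : G → FreeGroup (Fin n) := fun g =>
    if hg : g ∈ E2 then FreeGroup.of (e ⟨g, hg⟩) else 1
  have hvar : ∀ g ∈ E2, FreeGroup.lift x (var g) = g := by
    intro g hg
    simp only [var, hg, dif_pos, FreeGroup.lift_apply_of]
    exact hxe g hg
  let prem : List (FreeGroup (Fin n)) :=
    ((E ×ˢ E).toList).map (fun p => var p.1 * var p.2 * (var (p.1 * p.2))⁻¹)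
  have hE2 : ∀ a ∈ E, a ∈ E2 := fun a ha => by simp [E2, ha]
  have hE2' : ∀ a ∈ E, ∀ b ∈ E, a * b ∈ E2 := by
    intro a ha b hb
    simp only [E2, Finset.mem_union, Finset.mem_image, Finset.mem_product]
    exact Or.inr ⟨(a, b), ⟨ha, hb⟩, rfl⟩
  have hprem : ∀ w ∈ prem, FreeGroup.lift x w = 1 := by
    intro w hw
    simp only [prem, List.mem_map, Finset.mem_toList, Finset.mem_product] at hw
    obtain ⟨⟨a, b⟩, ⟨ha, hb⟩, rfl⟩ := hw
    simp only [map_mul, map_inv]
    rw [hvar a (hE2 a ha), hvar b (hE2 b hb), hvar _ (hE2' a ha b hb)]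
    simp
  -- for each pair of distinct elements of `E` a witness
  have hwit : ∀ p : {p : G × G // p ∈ E ×ˢ E ∧ p.1 ≠ p.2}, ∃ (K : Type u) (_ : Group K), C K ∧
      ∃ y : Fin n → K, (∀ w ∈ prem, FreeGroup.lift y w = 1) ∧
        FreeGroup.lift y (var p.1.1 * (var p.1.2)⁻¹) ≠ 1 := by
    intro p
    by_contra hcon
    push Not at hcon
    have := h ⟨n, prem, var p.1.1 * (var p.1.2)⁻¹⟩ (by
      intro K hK hCK y hy
      exact hcon K hK hCK y hy)
    have h2 := this x hprem
    obtain ⟨⟨a, b⟩, hp, hne⟩ := p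
    simp only [Finset.mem_product] at hp
    simp only [map_mul, map_inv] at h2
    rw [hvar a (hE2 a hp.1), hvar b (hE2 b hp.2)] at h2
    exact hne (mul_inv_eq_one.1 h2)
  let P := {p : G × G // p ∈ E ×ˢ E ∧ p.1 ≠ p.2}
  haveI : Finite P := Set.Finite.to_subtype
    (Set.Finite.subset (E ×ˢ E).finite_toSet (by intro p hp; exact hp.1))
  haveI : Fintype P := Fintype.ofFinite P
  let eP : Fin (Fintype.card P) ≃ P := (Fintype.equivFin P).symm
  choose K hKg hKC y hy1 hy2 using hwit
  letI : ∀ i, Group (K (eP i)) := fun i => hKg (eP i)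
  refine ⟨∀ i, K (eP i), inferInstance, hfin _ _ (fun i => hKC (eP i)), ?_⟩
  refine ⟨fun g i => @FreeGroup.lift _ _ (hKg (eP i)) (y (eP i)) (var g), ?_, ?_⟩
  · intro a ha b hb
    funext i
    have := hy1 (eP i) (var a * var b * (var (a * b))⁻¹) (by
      simp only [prem, List.mem_map, Finset.mem_toList, Finset.mem_product]
      exact ⟨(a, b), ⟨ha, hb⟩, rfl⟩)
    simp only [map_mul, map_inv] at this
    exact (mul_inv_eq_one.1 this).symm
  · intro a ha b hb hab
    by_contra hne
    let p : P := ⟨(a, b), by simpa using ⟨ha, hb⟩, hne⟩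
    have h2 := hy2 p
    apply h2
    have h3 := congrFun hab (eP.symm p)
    simp only [map_mul, map_inv]
    have h4 : @FreeGroup.lift _ _ (hKg p) (y p) (var a) = @FreeGroup.lift _ _ (hKg p) (y p) (var b) := by
      have : eP (eP.symm p) = p := eP.apply_symm_apply p
      rw [← this]
      exact h3
    rw [mul_inv_eq_one]
    exact h4

/-- A class closed under finite products and local embeddability is a quasivariety. -/
theorem axiomatised_of_LE {C : (G : Type u) → [Group G] → Prop}
    (hfin : ∀ (n : ℕ) (K : Fin n → Type u) [∀ i, Group (K i)], (∀ i, C (K i)) →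
      C (∀ i, K i))
    (hLE : ∀ (G : Type u) [Group G], LE C G → C G) :
    ∃ Φ : Set QuasiIdentity, ∀ (G : Type u) [Group G], C G ↔ ∀ φ ∈ Φ, φ.Holds G := by
  refine ⟨{φ | ∀ (K : Type u) [Group K], C K → φ.Holds K}, fun G _ => ⟨?_, ?_⟩⟩
  · intro hG φ hφ
    exact hφ G hG
  · intro h
    exact hLE G (LE.of_holds hfin h)

end Pool.Agent.H11.QV
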