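import Pool.Agent.H11.QVEmbed

/-!
# The two embedding theorems
-/

set_option autoImplicit false

universe u

namespace Pool.Agent.H11.QV

open Quasivariety
open FreeGroup (of lift_mk mul_mk mk_toWord one_eq_mk lift_apply_of IsReduced
  IsCyclicallyReduced)

/-- First embedding theorem: if `1 ≠ k` lies in the `D`-residual of `Y`, then
`Wr V ⟨k⟩` embeds into the `D`-residual of a wreath product of `V` with a power of `Y`. -/
theorem embed_res_of_mem {D : Quasivariety.{u}} (V : Type u) [Group V] [Group.FG V]
    {Y : Type u} [Group Y] {k : Y} (hk : k ∈ res D Y) (hk1 : k ≠ 1) :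
    ∃ (ι : Type) (_ : Fintype ι) (g : Wr V (Subgroup.zpowers k) →* res D (Wr V (Y × (ι → Y)))),
      Function.Injective g := by
  classical
  let u : Y → ℤ := fun e => (if e = 1 then 1 else 0) - (if e = k then 1 else 0)
  have hu1 : u 1 = 1 := by
    simp only [u, if_true]
    rw [if_neg (Ne.symm hk1)]
    simp
  obtain ⟨ι, hι, hdι, hmain⟩ := Wr.embed_main (V := V) (H₀ := Y) u {1, k} (by
    intro h hh
    by_contra hcon
    apply hh
    simp only [Finset.mem_insert, Finset.mem_singleton, not_or] at hcon
    simp [u, hcon.1, hcon.2]) hu1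
  refine ⟨ι, hι, ?_⟩
  apply hmain Y (res D (Wr V (Y × (ι → Y))))
  · intro i c v
    let κ : Y × (ι → Y) := (1, Pi.mulSingle i k)
    -- the top element `κ` lies in the residual
    have hκ : Wr.top V (Y × (ι → Y)) κ ∈ res D (Wr V (Y × (ι → Y))) := by
      let f : Y →* Wr V (Y × (ι → Y)) := (Wr.top V (Y × (ι → Y))).comp
        ((MonoidHom.inr Y (ι → Y)).comp (MonoidHom.mulSingle (fun _ => Y) i))
      exact map_res f hk
    refine ⟨Wr.single c v * Wr.top V _ κ * (Wr.single c v)⁻¹ * (Wr.top V _ κ)⁻¹, ?_, ?_, ?_⟩
    · apply (res D (Wr V (Y × (ι → Y)))).mul_mem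
      · exact res_normal.conj_mem _ hκ _
      · exact (res D (Wr V (Y × (ι → Y)))).inv_mem hκ
    · simp
    · intro d
      have h1 : Wr.single c v * Wr.top V _ κ * (Wr.single c v)⁻¹ * (Wr.top V _ κ)⁻¹ =
          Wr.single c v * Wr.single (κ * c) v⁻¹ := by
        rw [← Wr.conj_single, map_inv]
        group
      rw [h1, Wr.mul_f]
      simp only [Wr.single_t, inv_one, one_mul, Wr.single_f]
      by_cases hA : d.1 = c.1 ∧ ∀ i', i' ≠ i → d.2 i' = c.2 i'
      · left
        refine ⟨hA, ?_⟩
        have e1 : d = c ↔ d.2 i * (c.2 i)⁻¹ = 1 := by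
          rw [mul_inv_eq_one]
          constructor
          · intro h; rw [h]
          · intro h
            apply Prod.ext hA.1
            funext i'
            by_cases hi : i' = i
            · rw [hi, h]
            · exact hA.2 i' hi
        have e2 : d = κ * c ↔ d.2 i * (c.2 i)⁻¹ = k := by
          rw [mul_inv_eq_iff_eq_mul]
          constructor
          · intro h
            rw [h]
            simp [κ]
          · intro h
            apply Prod.ext
            · rw [hA.1]
              simp [κ]
            · funext i'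
              by_cases hi : i' = i
              · subst hi
                rw [h]
                simp [κ]
              · rw [hA.2 i' hi]
                simp [κ, Pi.mulSingle_eq_of_ne hi]
        simp only [e1, e2, u]
        by_cases c1 : d.2 i * (c.2 i)⁻¹ = 1
        · have c2 : ¬ d.2 i * (c.2 i)⁻¹ = k := by
            intro h
            exact hk1 (h.symm.trans c1)
          simp [c1, Ne.symm hk1]
        · by_cases c2 : d.2 i * (c.2 i)⁻¹ = k
          · simp [c2, hk1]
          · simp [c1, c2]
      · right
        refine ⟨hA, ?_⟩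
        have n1 : ¬ d = c := by
          rintro rfl
          exact hA ⟨rfl, fun _ _ => rfl⟩
        have n2 : ¬ d = κ * c := by
          rintro rfl
          apply hA
          refine ⟨by simp [κ], fun i' hi => by simp [κ, Pi.mulSingle_eq_of_ne hi]⟩
        simp [n1, n2]
  · intro k' hk'
    have h1 : k' ∈ res D Y := (Subgroup.zpowers_le.2 hk) hk'
    let f : Y →* Wr V (Y × (ι → Y)) := (Wr.top V (Y × (ι → Y))).comp (MonoidHom.inl Y (ι → Y))
    exact map_res f h1

/-! ### Exponent functions of words -/

section Exponent

variable {H : Type u} [Group H]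

open Classical in
/-- The exponent function of a word (list of letters) with respect to the variable `x`. -/
noncomputable def uL (η : ℕ → H) (x : ℕ) : List (ℕ × Bool) → H → ℤ
  | [], _ => 0
  | (y, true) :: L, e => (if y = x ∧ e = 1 then 1 else 0) + uL η x L ((η y)⁻¹ * e)
  | (y, false) :: L, e => -(if y = x ∧ η y * e = 1 then 1 else 0) + uL η x L (η y * e)

open Classical in
/-- The assignment in the wreath product. -/
noncomputable def asg {V : Type u} [Group V] (η : ℕ → H) (x : ℕ) (c : H) (v : V) (y : ℕ) :
    Wr V H := (if y = x then Wr.single c v else 1) * Wr.top V H (η y)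

theorem asg_t {V : Type u} [Group V] (η : ℕ → H) (x : ℕ) (c : H) (v : V) (y : ℕ) :
    (asg η x c v y).t = η y := by
  unfold asg
  split_ifs <;> simp

open Classical in
theorem asg_f {V : Type u} [Group V] (η : ℕ → H) (x : ℕ) (c : H) (v : V) (y : ℕ) (d : H) :
    (asg η x c v y).f d = if y = x ∧ d = c then v else 1 := by
  unfold asg
  by_cases h : y = x
  · simp [h, Wr.mul_f, Wr.single_f]
  · simp [h, Wr.mul_f]

theorem eval_top {V : Type u} [Group V] (η : ℕ → H) (x : ℕ) (c : H) (v : V)
    (w : FreeGroup ℕ) : (FreeGroup.lift (asg η x c v) w).t = FreeGroup.lift η w := by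
  have h1 := hom_lift (Wr.proj V H) (asg η x c v) w
  rw [Wr.proj_apply] at h1
  rw [h1]
  congr 2
  funext y
  exact asg_t η x c v y

theorem eval_f {V : Type u} [Group V] (η : ℕ → H) (x : ℕ) (c : H) (v : V)
    (L : List (ℕ × Bool)) (d : H) :
    (FreeGroup.lift (asg η x c v) (FreeGroup.mk L)).f d = v ^ uL η x L (d * c⁻¹) := by
  classical
  induction L generalizing d with
  | nil => simp [uL, ← one_eq_mk]
  | cons a L ih =>
    have h1 : (FreeGroup.mk (a :: L) : FreeGroup ℕ) = FreeGroup.mk [a] * FreeGroup.mk L := by
      rw [mul_mk]; rfl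
    rw [h1, map_mul, Wr.mul_f, ih]
    rcases a with ⟨y, b⟩
    cases b
    · have h2 : FreeGroup.lift (asg η x c v) (FreeGroup.mk [(y, false)]) = (asg η x c v y)⁻¹ := by
        simp [lift_mk]
      rw [h2, Wr.inv_t, asg_t, inv_inv, Wr.inv_f, asg_t, asg_f]
      simp only [uL]
      rw [zpow_add, mul_assoc]
      congr 1
      have h3 : (η y * d = c) ↔ (η y * (d * c⁻¹) = 1) := by
        rw [← mul_assoc, mul_inv_eq_one]
      by_cases hc : y = x ∧ η y * (d * c⁻¹) = 1
      · rw [if_pos hc, if_pos ⟨hc.1, h3.2 hc.2⟩]
        simp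
      · rw [if_neg hc, if_neg (fun h => hc ⟨h.1, h3.1 h.2⟩)]
        simp
    · have h2 : FreeGroup.lift (asg η x c v) (FreeGroup.mk [(y, true)]) = asg η x c v y := by
        simp [lift_mk]
      rw [h2, asg_t, asg_f]
      simp only [uL]
      rw [zpow_add, mul_assoc]
      congr 1
      have h3 : (d = c) ↔ (d * c⁻¹ = 1) := by
        rw [mul_inv_eq_one]
      by_cases hc : y = x ∧ d * c⁻¹ = 1
      · rw [if_pos hc, if_pos ⟨hc.1, h3.2 hc.2⟩]
        simp
      · rw [if_neg hc, if_neg (fun h => hc ⟨h.1, h3.1 h.2⟩)]
        simp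

theorem uL_finite (η : ℕ → H) (x : ℕ) (L : List (ℕ × Bool)) :
    ∃ J : Finset H, ∀ e, uL η x L e ≠ 0 → e ∈ J := by
  classical
  induction L with
  | nil => exact ⟨∅, fun e he => absurd rfl he⟩
  | cons a L ih =>
    obtain ⟨J, hJ⟩ := ih
    rcases a with ⟨y, b⟩
    cases b
    · refine ⟨insert (η y)⁻¹ (J.image (fun e => (η y)⁻¹ * e)), fun e he => ?_⟩
      rw [Finset.mem_insert, Finset.mem_image]
      by_cases h1 : η y * e = 1
      · left
        exact eq_inv_of_mul_eq_one_right h1
      · right
        refine ⟨η y * e, hJ _ ?_, by simp⟩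
        intro h2
        apply he
        simp [uL, h1, h2]
    · refine ⟨insert 1 (J.image (fun e => η y * e)), fun e he => ?_⟩
      rw [Finset.mem_insert, Finset.mem_image]
      by_cases h1 : e = 1
      · left
        exact h1
      · right
        refine ⟨(η y)⁻¹ * e, hJ _ ?_, by simp⟩
        intro h2
        apply he
        simp [uL, h1, h2]

theorem uL_map {K : Type u} [Group K] (j : K →* H) (hj : Function.Injective j) (η : ℕ → K)
    (x : ℕ) (L : List (ℕ × Bool)) (e : K) : uL (j ∘ η) x L (j e) = uL η x L e := by
  classical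
  induction L generalizing e with
  | nil => rfl
  | cons a L ih =>
    rcases a with ⟨y, b⟩
    cases b
    · simp only [uL, Function.comp_apply, ← map_mul, ih]
      congr 2
      simp only [map_eq_one_iff j hj]
    · simp only [uL, Function.comp_apply, ← map_mul, ← map_inv, ih]
      congr 1
      simp only [map_eq_one_iff j hj]

theorem uL_map' {K : Type u} [Group K] (j : K →* H) (η : ℕ → K)
    (x : ℕ) (L : List (ℕ × Bool)) (e : H) (he : e ∉ j.range) : uL (j ∘ η) x L e = 0 := by
  classical
  induction L generalizing e with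
  | nil => rfl
  | cons a L ih =>
    rcases a with ⟨y, b⟩
    cases b
    · have h1 : j (η y) * e ∉ j.range := by
        intro h
        exact he ((j.range.mul_mem_cancel_left ⟨η y, rfl⟩).1 h)
      simp only [uL, Function.comp_apply]
      rw [ih _ h1, if_neg (fun h => h1 (by rw [h.2]; exact one_mem _))]
      simp
    · have h1 : (j (η y))⁻¹ * e ∉ j.range := by
        intro h
        exact he ((j.range.mul_mem_cancel_left (j.range.inv_mem ⟨η y, rfl⟩)).1 h)
      simp only [uL, Function.comp_apply]
      rw [ih _ h1, if_neg (fun h => he (by rw [h.2]; exact one_mem _))]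
      simp

theorem uL_eq_zero (η : ℕ → H) (x : ℕ) (L : List (ℕ × Bool)) (e : H)
    (h1 : ∀ P a S, L = P ++ a :: S → (FreeGroup.lift η (FreeGroup.mk P))⁻¹ * e ≠ 1)
    (h2 : ∀ P a, L = P ++ [a] → a ≠ (x, false)) : uL η x L e = 0 := by
  classical
  induction L generalizing e with
  | nil => rfl
  | cons a L ih =>
    have hstep : ∀ (e' : H), e' = (FreeGroup.lift η (FreeGroup.mk [a]))⁻¹ * e →
        uL η x L e' = 0 := by
      intro e' he'
      apply ih
      · intro P b S hL
        have := h1 (a :: P) b S (by rw [hL]; rfl)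
        have h3 : (FreeGroup.mk (a :: P) : FreeGroup ℕ) = FreeGroup.mk [a] * FreeGroup.mk P := by
          rw [mul_mk]; rfl
        rw [h3, map_mul, mul_inv_rev, mul_assoc, ← he'] at this
        exact this
      · intro P b hL
        exact h2 (a :: P) b (by rw [hL]; rfl)
    rcases a with ⟨y, b⟩
    cases b
    · have h4 : FreeGroup.lift η (FreeGroup.mk [(y, false)]) = (η y)⁻¹ := by simp [lift_mk]
      simp only [uL]
      rw [hstep (η y * e) (by rw [h4, inv_inv])]
      have h5 : ¬ (y = x ∧ η y * e = 1) := by
        rintro ⟨hy, he⟩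
        match L with
        | [] => exact h2 [] (y, false) rfl (by rw [hy])
        | b :: S =>
          have := h1 [(y, false)] b S rfl
          rw [h4, inv_inv] at this
          exact this he
      rw [if_neg h5]
      simp
    · have h4 : FreeGroup.lift η (FreeGroup.mk [(y, true)]) = η y := by simp [lift_mk]
      simp only [uL]
      rw [hstep ((η y)⁻¹ * e) (by rw [h4])]
      have h5 : ¬ (y = x ∧ e = 1) := by
        rintro ⟨_, he⟩
        have := h1 [] (y, true) L rfl
        rw [← one_eq_mk, map_one, inv_one, one_mul] at this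
        exact this he
      rw [if_neg h5]
      simp

end Exponent

/-- A minimal law starting with a positive letter. -/
theorem exists_min_law {X : Quasivariety.{u}} (hX : X.HasLaw) :
    ∃ (x : ℕ) (L : List (ℕ × Bool)), ((x, true) :: L).length = lawLen X ∧
      FreeGroup.mk ((x, true) :: L) ≠ 1 ∧ IsLaw X (FreeGroup.mk ((x, true) :: L)) := by
  classical
  obtain ⟨L, hlen, hne, hlaw⟩ := HasLaw.lawLen_spec hX
  match L, hlen, hne, hlaw with
  | [], _, hne, _ => exact absurd rfl hne
  | (x, true) :: L', hlen, hne, hlaw => exact ⟨x, L', hlen, hne, hlaw⟩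
  | (x, false) :: L', hlen, hne, hlaw =>
    let ρ : FreeGroup ℕ →* FreeGroup ℕ := FreeGroup.lift (fun i => (of i)⁻¹)
    have hρ : ∀ M : List (ℕ × Bool), ρ (FreeGroup.mk M) = FreeGroup.mk (M.map (fun p => (p.1, !p.2))) := by
      intro M
      induction M with
      | nil => rfl
      | cons a M ih =>
        have h1 : (FreeGroup.mk (a :: M) : FreeGroup ℕ) = FreeGroup.mk [a] * FreeGroup.mk M := by
          rw [mul_mk]; rfl
        have h2 : (FreeGroup.mk (List.map (fun p => (p.1, !p.2)) (a :: M)) : FreeGroup ℕ) =
          FreeGroup.mk [(a.1, !a.2)] * FreeGroup.mk (M.map (fun p => (p.1, !p.2))) := by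
          rw [mul_mk]; rfl
        rw [h1, h2, map_mul, ih]
        congr 1
        rcases a with ⟨y, b⟩
        cases b
        · have : (FreeGroup.mk [(y, false)] : FreeGroup ℕ) = (of y)⁻¹ := rfl
          rw [this, map_inv]
          simp only [ρ, lift_apply_of, inv_inv]
          rfl
        · have : (FreeGroup.mk [(y, true)] : FreeGroup ℕ) = (of y) := rfl
          rw [this]
          simp only [ρ, lift_apply_of]
          rfl
    refine ⟨x, L'.map (fun p => (p.1, !p.2)), by simpa using hlen, ?_, ?_⟩
    · intro h1
      apply hne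
      have h2 := hρ ((x, true) :: L'.map (fun p => (p.1, !p.2)))
      rw [h1, map_one] at h2
      rw [h2]
      congr 1
      simp only [List.map_cons, List.map_map, Bool.not_true, List.cons.injEq, true_and]
      conv_lhs => rw [← List.map_id L']
      apply List.map_congr_left
      intro p _
      simp
    · have h2 := hlaw.hom ρ
      rw [hρ] at h2
      simpa using h2

/-- A group in which no proper non-empty initial segment of a minimal law is trivial. -/
theorem exists_witness {X : Quasivariety.{u}} {L : List (ℕ × Bool)}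
    (hlen : L.length = lawLen X) (hred : IsReduced L) :
    ∃ (H : Type u) (_ : Group H) (η : ℕ → H), X.Mem H ∧
      ∀ P S, L = P ++ S → P ≠ [] → S ≠ [] → FreeGroup.lift η (FreeGroup.mk P) ≠ 1 := by
  classical
  have hwit : ∀ n : Fin L.length, ∃ (K : Type u) (_ : Group K) (η : ℕ → K), X.Mem K ∧
      ((n : ℕ) ≠ 0 → FreeGroup.lift η (FreeGroup.mk (L.take n)) ≠ 1) := by
    intro n
    by_cases hn : (n : ℕ) = 0
    · exact ⟨PUnit, inferInstance, fun _ => 1, mem_of_subsingleton, fun h => absurd hn h⟩
    · have h1 : IsReduced (L.take n) := by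
        unfold FreeGroup.IsReduced at hred ⊢
        exact hred.take n
      have h2 : L.take n ≠ [] := by
        intro h
        have := congrArg List.length h
        simp only [List.length_take, List.length_nil] at this
        have := n.2
        omega
      have h3 : ¬ IsLaw X (FreeGroup.mk (L.take n)) := by
        intro h
        have h4 := lawLen_le_of (isReduced_mk_ne_one h1 h2) h
        simp only [List.length_take] at h4
        have := n.2
        omega
      unfold IsLaw at h3
      push Not at h3
      obtain ⟨K, hK, hX, η, h4⟩ := h3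
      exact ⟨K, hK, η, hX, fun _ => h4⟩
  choose K hK η hX hη using hwit
  letI : ∀ n, Group (K n) := hK
  refine ⟨∀ n, K n, inferInstance, fun y n => η n y, ?_, ?_⟩
  · exact mem_pi' (MonoidHom.id _) (fun _ _ h => h) hX
  · intro P S hPS hP hS h1
    have hlt : P.length < L.length := by
      rw [hPS, List.length_append]
      have : 0 < S.length := List.length_pos_of_ne_nil hS
      omega
    let n : Fin L.length := ⟨P.length, hlt⟩
    have hn : (n : ℕ) ≠ 0 := by
      simp only [n]
      intro h
      exact hP (List.length_eq_zero_iff.1 h)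
    apply hη n hn
    have h2 : L.take n = P := by
      simp only [n]
      rw [hPS]
      simp
    rw [h2]
    have h3 := congrFun h1 n
    have h4 := hom_lift (Pi.evalMonoidHom K n) (fun y n => η n y) (FreeGroup.mk P)
    exact h4.symm.trans h3

/-- Second embedding theorem: if `B` has a non-trivial law and `V` is finitely generated, then
there is `H ∈ B` such that for every `Y` the group `Wr V (res B Y)` embeds into
`res B (Wr V (Y × H))`. -/
theorem embed_res {B : Quasivariety.{u}} (hB : B.HasLaw) (V : Type u) [Group V] [Group.FG V] :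
    ∃ (H : Type u) (_ : Group H), B.Mem H ∧ ∀ (Y : Type u) [Group Y],
      ∃ g : Wr V (res B Y) →* res B (Wr V (Y × H)), Function.Injective g := by
  classical
  obtain ⟨x, L, hlen, hne, hlaw⟩ := exists_min_law hB
  have hcyc := minimal_law hlen hne hlaw
  obtain ⟨H₀, hH₀, η, hmem, hη⟩ := exists_witness hlen hcyc.1
  let u : H₀ → ℤ := uL η x ((x, true) :: L)
  have hu1 : u 1 = 1 := by
    have h1 : uL η x L ((η x)⁻¹ * 1) = 0 := by
      apply uL_eq_zero
      · intro P a S hL h2
        rw [mul_one, inv_mul_eq_one] at h2
        apply hη ((x, true) :: P) (a :: S) (by rw [hL]; rfl) (by simp) (by simp)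
        have h3 : (FreeGroup.mk ((x, true) :: P) : FreeGroup ℕ) =
            FreeGroup.mk [(x, true)] * FreeGroup.mk P := by
          rw [mul_mk]; rfl
        rw [h3, map_mul, h2]
        simp [lift_mk]
      · intro P a hL ha
        have h2 := hcyc.2 a (by
          rw [hL]
          change ((((x, true) :: P) ++ [a]).getLast?) = some a
          rw [List.getLast?_concat]) (x, true) (by simp)
        rw [ha] at h2
        simp at h2
    simp only [u, uL]
    rw [h1]
    simp
  obtain ⟨J, hJ⟩ := uL_finite η x ((x, true) :: L)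
  obtain ⟨ι, hι, hdι, hmain⟩ := Wr.embed_main (V := V) (H₀ := H₀) u J hJ hu1
  refine ⟨ι → H₀, inferInstance, mem_pi' (MonoidHom.id _) (fun _ _ h => h) (fun _ => hmem),
    fun Y _ => ?_⟩
  apply hmain Y (res B (Wr V (Y × (ι → H₀))))
  · intro i c v
    let j : H₀ →* Y × (ι → H₀) := (MonoidHom.inr Y (ι → H₀)).comp
      (MonoidHom.mulSingle (fun _ => H₀) i)
    have hj : Function.Injective j := by
      intro a b hab
      have h1 := congrFun (congrArg Prod.snd hab) i
      simpa [j] using h1
    refine ⟨FreeGroup.lift (asg (j ∘ η) x c v) (FreeGroup.mk ((x, true) :: L)), ?_, ?_, ?_⟩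
    · exact law_mem_res hlaw _
    · rw [eval_top, ← hom_lift, hlaw H₀ hmem, map_one]
    · intro d
      rw [eval_f]
      by_cases hA : d.1 = c.1 ∧ ∀ i', i' ≠ i → d.2 i' = c.2 i'
      · left
        refine ⟨hA, ?_⟩
        have h1 : d * c⁻¹ = j (d.2 i * (c.2 i)⁻¹) := by
          apply Prod.ext
          · simp [j, hA.1]
          · funext i'
            by_cases hi : i' = i
            · subst hi; simp [j]
            · simp [j, Pi.mulSingle_eq_of_ne hi, hA.2 i' hi]
        rw [h1, uL_map j hj]
      · right
        refine ⟨hA, ?_⟩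
        rw [uL_map', zpow_zero]
        rintro ⟨e, he⟩
        apply hA
        constructor
        · have h1 := congrArg Prod.fst he
          simp only [j, MonoidHom.comp_apply, MonoidHom.inr_apply, Prod.fst_mul, Prod.fst_inv] at h1
          exact (mul_inv_eq_one.1 h1.symm)
        · intro i' hi
          have h1 := congrFun (congrArg Prod.snd he) i'
          simp only [j, MonoidHom.comp_apply, MonoidHom.inr_apply, Prod.snd_mul, Prod.snd_inv,
            MonoidHom.mulSingle_apply, Pi.mulSingle_eq_of_ne hi, Pi.mul_apply, Pi.inv_apply] at h1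
          exact (mul_inv_eq_one.1 h1.symm)
  · intro k hk
    let f : Y →* Wr V (Y × (ι → H₀)) := (Wr.top V (Y × (ι → H₀))).comp (MonoidHom.inl Y (ι → H₀))
    exact map_res f hk

end Pool.Agent.H11.QV
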