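import Mathlib

/-!
# Quasivarieties of groups: definitions
-/

set_option autoImplicit false

universe u

namespace Pool.Agent.H11.QV

/-- A quasi-identity in the language of groups: finitely many premises `w = 1`
(`w ∈ prem`) and one conclusion `concl = 1`, all in the variables `x_0, …, x_{n-1}`. -/
structure QuasiIdentity where
  /-- number of variables -/
  n : ℕ
  /-- the words of the premises -/
  prem : List (FreeGroup (Fin n))
  /-- the word of the conclusion -/
  concl : FreeGroup (Fin n)

/-- The quasi-identity `φ` holds in the group `G`: for every assignment `x` of the variables,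
if all premise words evaluate to `1`, then so does the word of the conclusion. -/
def QuasiIdentity.Holds (φ : QuasiIdentity) (G : Type u) [Group G] : Prop :=
  ∀ x : Fin φ.n → G, (∀ w ∈ φ.prem, FreeGroup.lift x w = 1) → FreeGroup.lift x φ.concl = 1

/-- A quasivariety of groups: a class of groups which is the class of all groups in which
all quasi-identities of some set hold. -/
@[ext]
structure Quasivariety where
  /-- membership of a group in the class -/
  Mem : (G : Type u) → [Group G] → Prop
  /-- the class is axiomatised by a set of quasi-identities -/
  axiomatised : ∃ Φ : Set QuasiIdentity, ∀ (G : Type u) [Group G],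
    Mem G ↔ ∀ φ ∈ Φ, φ.Holds G

/-- The quasivariety `X` satisfies a non-trivial identity. -/
def Quasivariety.HasLaw (X : Quasivariety.{u}) : Prop :=
  ∃ (n : ℕ) (w : FreeGroup (Fin n)), w ≠ 1 ∧
    ∀ (G : Type u) [Group G], X.Mem G → ∀ x : Fin n → G, FreeGroup.lift x w = 1

end Pool.Agent.H11.QV
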