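import Pool.Agent.H11.QVLaw

/-!
# Products of quasivarieties with a law have a law; minimal laws
-/

set_option autoImplicit false

universe u

namespace Pool.Agent.H11.QV

open Quasivariety
open FreeGroup (of lift_mk mul_mk mk_toWord one_eq_mk lift_apply_of toWord IsReduced
  IsCyclicallyReduced invRev)

variable {X Y Z : Quasivariety.{u}}

theorem isReduced_mk_ne_one {α : Type*} {L : List (α × Bool)} (h : IsReduced L) (hne : L ≠ []) :
    FreeGroup.mk L ≠ 1 := by
  classical
  intro h1
  rw [← FreeGroup.toWord_eq_nil_iff, FreeGroup.toWord_mk, h.reduce_eq] at h1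
  exact hne h1

theorem isReduced_invRev {α : Type*} {L : List (α × Bool)} (h : IsReduced L) :
    IsReduced (invRev L) := by
  classical
  rw [FreeGroup.isReduced_iff_reduce_eq, FreeGroup.reduce_invRev, h.reduce_eq]

theorem isReduced_map {α β : Type*} {L : List (α × Bool)} (h : IsReduced L) {j : α → β}
    (hj : Function.Injective j) : IsReduced (L.map (fun p => (j p.1, p.2))) := by
  unfold FreeGroup.IsReduced at h ⊢
  rw [List.isChain_map]
  apply h.imp
  intro a b hab h2
  exact hab (hj h2)

section Subst

variable (M : List (ℕ × Bool)) {ι : Type*}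

/-- The copy of the word `M` with index `i`. -/
def copyWord (i : ι) : List ((ι × ℕ) × Bool) := M.map (fun p => ((i, p.1), p.2))

/-- The copy of the word `M` or its inverse. -/
def subWord (p : ι × Bool) : List ((ι × ℕ) × Bool) :=
  cond p.2 (copyWord M p.1) (invRev (copyWord M p.1))

/-- Substitution of the copies of `M` for the variables. -/
def subHom : FreeGroup ι →* FreeGroup (ι × ℕ) := FreeGroup.lift (fun i => FreeGroup.mk (copyWord M i))

theorem subHom_mk (L : List (ι × Bool)) :
    subHom M (FreeGroup.mk L) = FreeGroup.mk ((L.map (subWord M)).flatten) := by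
  induction L with
  | nil => rfl
  | cons a L ih =>
    have h1 : (FreeGroup.mk (a :: L) : FreeGroup ι) = FreeGroup.mk [a] * FreeGroup.mk L := by
      rw [mul_mk]; rfl
    rw [h1, map_mul, ih, List.map_cons, List.flatten_cons, ← mul_mk]
    congr 1
    rcases a with ⟨i, b⟩
    cases b
    · simp [subHom, subWord, lift_mk, FreeGroup.inv_mk]
    · simp [subHom, subWord, lift_mk]

theorem isReduced_copyWord (hM : IsReduced M) (i : ι) : IsReduced (copyWord M i) := by
  unfold copyWord
  exact isReduced_map hM (j := fun a => (i, a)) (by intro a b h; simpa using h)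

theorem isReduced_subWord (hM : IsReduced M) (p : ι × Bool) : IsReduced (subWord M p) := by
  rcases p with ⟨i, b⟩
  cases b
  · exact isReduced_invRev (isReduced_copyWord M hM i)
  · exact isReduced_copyWord M hM i

theorem subWord_ne_nil (hne : M ≠ []) (p : ι × Bool) : subWord M p ≠ [] := by
  rcases p with ⟨i, b⟩
  cases b <;> simp [subWord, copyWord, invRev, hne]

theorem isReduced_flatten (hM : IsCyclicallyReduced M) (hne : M ≠ []) {L : List (ι × Bool)}
    (hL : IsReduced L) : IsReduced ((L.map (subWord M)).flatten) := by
  unfold FreeGroup.IsReduced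
  rw [List.isChain_flatten]
  · refine ⟨?_, ?_⟩
    · intro l hl
      rw [List.mem_map] at hl
      obtain ⟨p, _, rfl⟩ := hl
      exact isReduced_subWord M hM.1 p
    · rw [List.isChain_map]
      apply hL.imp
      rintro ⟨i, b⟩ ⟨i', b'⟩ hab c hc d hd hcd
      -- the indices agree
      have hi : ∀ (p : ι × Bool) (c : (ι × ℕ) × Bool), c ∈ subWord M p → c.1.1 = p.1 := by
        rintro ⟨i, b⟩ c hc
        cases b
        · simp only [subWord, cond_false, invRev, copyWord, List.mem_reverse, List.mem_map] at hc
          obtain ⟨_, ⟨_, _, rfl⟩, rfl⟩ := hc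
          rfl
        · simp only [subWord, cond_true, copyWord, List.mem_map] at hc
          obtain ⟨_, _, rfl⟩ := hc
          rfl
      have h1 := hi _ c (List.mem_of_getLast? hc)
      have h2 := hi _ d (List.mem_of_mem_head? hd)
      have h3 : i = i' := by
        change c.1.1 = i at h1
        change d.1.1 = i' at h2
        rw [← h1, ← h2, hcd]
      have h4 : b = b' := hab h3
      subst h3 h4
      cases b
      · simp only [subWord, cond_false, invRev, copyWord, List.getLast?_reverse, List.map_map,
          List.head?_reverse, List.head?_map, List.getLast?_map, Option.mem_def,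
          Option.map_eq_some_iff, Function.comp] at hc hd
        obtain ⟨c', hc', rfl⟩ := hc
        obtain ⟨d', hd', rfl⟩ := hd
        simp only [Prod.mk.injEq, true_and] at hcd
        have := hM.2 d' hd' c' hc' hcd.symm
        simp [this]
      · simp only [subWord, cond_true, copyWord, List.getLast?_map, List.head?_map, Option.mem_def,
          Option.map_eq_some_iff] at hc hd
        obtain ⟨c', hc', rfl⟩ := hc
        obtain ⟨d', hd', rfl⟩ := hd
        simp only [Prod.mk.injEq, true_and] at hcd
        exact hM.2 c' hc' d' hd' hcd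
  · intro h
    rw [List.mem_map] at h
    obtain ⟨p, _, hp⟩ := h
    exact subWord_ne_nil M hne p hp

end Subst

/-- A product of quasivarieties with non-trivial laws has a non-trivial law. -/
theorem HasLaw.mul (hX : X.HasLaw) (hY : Y.HasLaw) : (mul X Y).HasLaw := by
  classical
  obtain ⟨LX, _, hXne, hXlaw⟩ := HasLaw.lawLen_spec hX
  obtain ⟨LY, _, hYne, hYlaw⟩ := HasLaw.lawLen_spec hY
  -- a cyclically reduced law of `Y`
  let R : List (ℕ × Bool) := FreeGroup.reduce LY
  have hR : IsReduced R := by
    rw [FreeGroup.isReduced_iff_reduce_eq]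
    exact FreeGroup.reduce.idem
  have hRmk : FreeGroup.mk R = FreeGroup.mk LY := FreeGroup.reduce.self
  let M : List (ℕ × Bool) := FreeGroup.reduceCyclically R
  have hM : IsCyclicallyReduced M := FreeGroup.reduceCyclically.isCyclicallyReduced hR
  have hconj : FreeGroup.mk (FreeGroup.reduceCyclically.conjugator R) * FreeGroup.mk M *
      (FreeGroup.mk (FreeGroup.reduceCyclically.conjugator R))⁻¹ = FreeGroup.mk R := by
    rw [FreeGroup.inv_mk, mul_mk, mul_mk, FreeGroup.reduceCyclically.conj_conjugator_reduceCyclically]
  have hMne : M ≠ [] := by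
    intro h
    rw [h, ← one_eq_mk, hRmk] at hconj
    apply hYne
    rw [← hconj]
    group
  have hMlaw : IsLaw Y (FreeGroup.mk M) := by
    apply IsLaw.conj (FreeGroup.mk (FreeGroup.reduceCyclically.conjugator R))
    rw [hconj, hRmk]
    exact hYlaw
  -- a reduced law of `X`
  let V : List (ℕ × Bool) := FreeGroup.reduce LX
  have hV : IsReduced V := by
    rw [FreeGroup.isReduced_iff_reduce_eq]
    exact FreeGroup.reduce.idem
  have hVmk : FreeGroup.mk V = FreeGroup.mk LX := FreeGroup.reduce.self
  have hVne : V ≠ [] := by
    intro h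
    apply hXne
    rw [← hVmk, h]
    rfl
  apply hasLaw_of (w := subHom M (FreeGroup.mk V))
  · rw [subHom_mk]
    apply isReduced_mk_ne_one (isReduced_flatten M hM hMne hV)
    obtain ⟨p, hp⟩ := List.exists_mem_of_ne_nil V hVne
    intro h
    rw [List.flatten_eq_nil_iff] at h
    exact subWord_ne_nil M hMne p (h _ (List.mem_map_of_mem hp))
  · intro G _ hG x
    have hG' : X.Mem (res Y G) := mul_mem_iff_res.1 hG
    have hmem : ∀ i : ℕ, FreeGroup.lift x (FreeGroup.mk (copyWord M i)) ∈ res Y G := by
      intro i
      apply law_mem_res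
      have : IsLaw Y (FreeGroup.map (fun a => (i, a)) (FreeGroup.mk M)) := hMlaw.hom _
      rw [FreeGroup.map.mk] at this
      exact this
    have h1 : FreeGroup.lift x (subHom M (FreeGroup.mk V)) =
        FreeGroup.lift (fun i => FreeGroup.lift x (FreeGroup.mk (copyWord M i)))
          (FreeGroup.mk V) := by
      unfold subHom
      rw [hom_lift]
      rfl
    rw [h1, hVmk]
    have h2 := hXlaw (res Y G) hG' (fun i => ⟨_, hmem i⟩)
    have h3 := hom_lift (res Y G).subtype (fun i : ℕ => (⟨_, hmem i⟩ : res Y G)) (FreeGroup.mk LX)
    rw [h2, map_one] at h3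
    exact h3.symm

/-- A law of minimal length is cyclically reduced. -/
theorem minimal_law {L : List (ℕ × Bool)} (hlen : L.length = lawLen X)
    (hne : FreeGroup.mk L ≠ 1) (hlaw : IsLaw X (FreeGroup.mk L)) : IsCyclicallyReduced L := by
  classical
  have hred : IsReduced L := by
    rw [FreeGroup.isReduced_iff_reduce_eq]
    have h1 : lawLen X ≤ (FreeGroup.reduce L).length :=
      lawLen_le_of (by rw [FreeGroup.reduce.self]; exact hne)
        (by rw [FreeGroup.reduce.self]; exact hlaw)
    have h2 : List.Sublist (FreeGroup.reduce L) L := FreeGroup.Red.sublist FreeGroup.reduce.red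
    exact h2.eq_of_length (le_antisymm h2.length_le (by omega))
  -- compare with the cyclic reduction
  let M : List (ℕ × Bool) := FreeGroup.reduceCyclically L
  have hM : IsCyclicallyReduced M := FreeGroup.reduceCyclically.isCyclicallyReduced hred
  have happ := FreeGroup.reduceCyclically.conj_conjugator_reduceCyclically L
  have hconj : FreeGroup.mk (FreeGroup.reduceCyclically.conjugator L) * FreeGroup.mk M *
      (FreeGroup.mk (FreeGroup.reduceCyclically.conjugator L))⁻¹ = FreeGroup.mk L := by
    rw [FreeGroup.inv_mk, mul_mk, mul_mk, happ]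
  have hMne : FreeGroup.mk M ≠ 1 := by
    intro h
    rw [h] at hconj
    apply hne
    rw [← hconj]
    group
  have hMlaw : IsLaw X (FreeGroup.mk M) := by
    apply IsLaw.conj (FreeGroup.mk (FreeGroup.reduceCyclically.conjugator L))
    rw [hconj]
    exact hlaw
  have h1 : lawLen X ≤ M.length := lawLen_le_of hMne hMlaw
  have h2 : M.length + 2 * (FreeGroup.reduceCyclically.conjugator L).length = L.length := by
    have := congrArg List.length happ
    simp only [List.length_append, FreeGroup.invRev_length] at this
    simp only [M]
    omega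
  have h3 : FreeGroup.reduceCyclically.conjugator L = [] := by
    rw [← List.length_eq_zero_iff]
    omega
  rw [h3] at happ
  simp only [List.nil_append, FreeGroup.invRev_empty, List.append_nil] at happ
  rw [← happ]
  exact hM

end Pool.Agent.H11.QV
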