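import Pool.Agent.H11.QVFamily
import Pool.Agent.H11.QVLawProd

/-!
# Embedding wreath products into normal subgroups of wreath products
-/

set_option autoImplicit false

universe u

namespace Pool.Agent.H11.QV

open Quasivariety

namespace Wr

variable {V D : Type u} [Group V] [Group D]

/-- A base element is determined in a commutative quotient by its coordinates. -/
theorem hom_eq_sum {C : Type*} [AddCommGroup C] (ψ : (proj V D).ker →* Multiplicative C)
    (T : Finset D) (a : (proj V D).ker) (ha : ∀ d, a.1.f d ≠ 1 → d ∈ T) :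
    (ψ a).toAdd = ∑ d ∈ T, (ψ ⟨single d (a.1.f d), rfl⟩).toAdd := by
  classical
  induction T using Finset.induction_on generalizing a with
  | empty =>
    have : a = 1 := by
      apply Subtype.ext
      apply ext'
      · intro d
        by_contra hne
        exact absurd (ha d hne) (by simp)
      · exact a.2
    rw [this]
    simp
  | insert s T hs ih =>
    let b : (proj V D).ker := ⟨single s (a.1.f s), rfl⟩
    let a' : (proj V D).ker := b⁻¹ * a
    have hval : ∀ d, a'.1.f d = if d = s then 1 else a.1.f d := by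
      intro d
      change ((single s (a.1.f s))⁻¹ * a.1).f d = _
      simp only [mul_f, inv_f, single_t, one_mul, inv_t, inv_one, single_f]
      split_ifs with hc
      · rw [hc]; simp
      · simp
    have h1 := ih a' (by
      intro d hd
      rw [hval] at hd
      split_ifs at hd with hds
      · exact absurd rfl hd
      · have := ha d hd
        rw [Finset.mem_insert] at this
        exact this.resolve_left hds)
    have h2 : a = b * a' := by simp [a']
    rw [Finset.sum_insert hs]
    conv_lhs => rw [h2]
    rw [map_mul, toAdd_mul, h1]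
    congr 1
    apply Finset.sum_congr rfl
    intro d hd
    have hds : d ≠ s := by
      rintro rfl
      exact hs hd
    rw [hval, if_neg hds]

theorem embed_main {H₀ : Type u} [Group H₀] [Group.FG V] (u : H₀ → ℤ) (J : Finset H₀)
    (hJ : ∀ h, u h ≠ 0 → h ∈ J) (hu : u 1 = 1) :
    ∃ (ι : Type) (_ : Fintype ι) (_ : DecidableEq ι), ∀ (Y : Type u) [Group Y]
      (R : Subgroup (Wr V (Y × (ι → H₀)))) [R.Normal],
      (∀ (i : ι) (c : Y × (ι → H₀)) (v : V), ∃ w ∈ R, w.t = 1 ∧
        ∀ d, (d.1 = c.1 ∧ ∀ i', i' ≠ i → d.2 i' = c.2 i') ∧ w.f d = v ^ u (d.2 i * (c.2 i)⁻¹) ∨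
          ¬ (d.1 = c.1 ∧ ∀ i', i' ≠ i → d.2 i' = c.2 i') ∧ w.f d = 1) →
      ∀ K : Subgroup Y, (∀ k ∈ K, top V (Y × (ι → H₀)) (k, 1) ∈ R) →
        ∃ g : Wr V K →* R, Function.Injective g := by
  classical
  obtain ⟨ι, hι, hdι, hne, S, Φ, hΦS, ⟨h₀, hh₀⟩, hΦ⟩ :=
    Grid.exists_family.{u, u} (insert 1 J) u 1 (Finset.mem_insert_self _ _) hu V
  refine ⟨ι, hι, hdι, fun Y _ R hR hrel K hK => ?_⟩
  let E := Y × (ι → H₀)
  -- commutators in single coordinates lie in `R`
  have hcomm : ∀ (d : E) (v v' : V), single d (v * v' * v⁻¹ * v'⁻¹) ∈ R := by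
    intro d v v'
    obtain ⟨i₀⟩ := hne
    obtain ⟨w, hwR, hwt, hw⟩ := hrel i₀ d v
    have hwd : w.f d = v := by
      rcases hw d with ⟨_, h2⟩ | ⟨h1, _⟩
      · rw [h2]; simp [hu]
      · exact absurd ⟨rfl, fun _ _ => rfl⟩ h1
    have h1 : w * (single d v' * w⁻¹ * (single d v')⁻¹) ∈ R :=
      R.mul_mem hwR (hR.conj_mem _ (R.inv_mem hwR) _)
    have h2 : w * (single d v' * w⁻¹ * (single d v')⁻¹) = single d (v * v' * v⁻¹ * v'⁻¹) := by
      apply ext'
      · intro e
        simp only [mul_f, inv_f, single_t, one_mul, inv_t, inv_one, mul_t, mul_one, hwt, single_f]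
        split_ifs with he
        · rw [he, hwd]; group
        · simp
      · simp [hwt]
    rwa [h2] at h1
  let Bs := (proj V E).ker
  let N : Subgroup Bs := R.subgroupOf Bs
  have hcommN : ∀ a b : Bs, a * b * a⁻¹ * b⁻¹ ∈ N := by
    intro a b
    rw [Subgroup.mem_subgroupOf]
    have hat : a.1.t = 1 := a.2
    have hbt : b.1.t = 1 := b.2
    apply mem_of_single_mem
    · simp [hat, hbt]
    · intro c
      have : ((a * b * a⁻¹ * b⁻¹ : Bs) : Wr V E).f c = a.1.f c * b.1.f c * (a.1.f c)⁻¹ * (b.1.f c)⁻¹ := by
        change (a.1 * b.1 * a.1⁻¹ * b.1⁻¹).f c = _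
        simp [mul_f, inv_f, hat, hbt]
      rw [this]
      exact hcomm c _ _
  let Q₀ := Bs ⧸ N
  letI : CommGroup Q₀ := { (inferInstance : Group Q₀) with
    mul_comm := by
      intro x y
      obtain ⟨a, rfl⟩ := QuotientGroup.mk_surjective x
      obtain ⟨b, rfl⟩ := QuotientGroup.mk_surjective y
      rw [← QuotientGroup.mk_mul, ← QuotientGroup.mk_mul, QuotientGroup.eq]
      have h1 := hcommN b⁻¹ a⁻¹
      have h2 : (a * b)⁻¹ * (b * a) = b⁻¹ * a⁻¹ * b⁻¹⁻¹ * a⁻¹⁻¹ := by group
      rw [h2]
      exact h1 }
  let Q := Additive Q₀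
  let ψ : Bs →* Multiplicative Q :=
    { toFun := fun a => Multiplicative.ofAdd (Additive.ofMul (QuotientGroup.mk' N a))
      map_one' := by
        rw [map_one]; rfl
      map_mul' := by
        intro a b
        rw [map_mul]; rfl }
  have hψ : ∀ a : Bs, (ψ a).toAdd = 0 ↔ a.1 ∈ R := by
    intro a
    have h1 : (ψ a).toAdd = 0 ↔ QuotientGroup.mk' N a = 1 := Iff.rfl
    rw [h1, QuotientGroup.mk'_apply, QuotientGroup.eq_one_iff, Subgroup.mem_subgroupOf]
  -- the homomorphisms `B`
  let B : Y → (ι → H₀) → (V →* Multiplicative Q) := fun y h =>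
    { toFun := fun v => ψ ⟨single (y, h) v, rfl⟩
      map_one' := by
        have : (⟨single (y, h) (1 : V), rfl⟩ : Bs) = 1 := Subtype.ext (map_one _)
        rw [this, map_one]
      map_mul' := by
        intro a b
        rw [← map_mul]
        congr 1
        exact Subtype.ext (map_mul _ _ _) }
  have hB : ∀ (y : Y) (v : V) (i : ι) (c : ι → H₀),
      ∑ j ∈ insert 1 J, u j • (B y (Function.update c i j) v).toAdd = 0 := by
    intro y v i c
    obtain ⟨w, hwR, hwt, hw⟩ := hrel i (y, Function.update c i 1) v
    let w' : Bs := ⟨w, hwt⟩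
    have h0 : (ψ w').toAdd = 0 := (hψ w').2 hwR
    let e : H₀ → E := fun j => (y, Function.update c i j)
    have he : Function.Injective e := by
      intro j j' hjj
      have h1 := congrFun (congrArg Prod.snd hjj) i
      simpa [e] using h1
    have hwe : ∀ j, w.f (e j) = v ^ u j := by
      intro j
      rcases hw (e j) with ⟨_, h2⟩ | ⟨h1, _⟩
      · rw [h2]; simp [e]
      · exfalso
        apply h1
        refine ⟨rfl, fun i' hi' => ?_⟩
        simp [e, Function.update_of_ne hi']
    have h1 := hom_eq_sum ψ ((insert 1 J).image e) w' (by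
      intro d hd
      rcases hw d with ⟨⟨h1, h2⟩, h3⟩ | ⟨_, h2⟩
      · have hud : u (d.2 i) ≠ 0 := by
          intro h0
          apply hd
          change w.f d = 1
          rw [h3]
          simp [h0]
        have hd' : d = e (d.2 i) := by
          apply Prod.ext
          · exact h1
          · funext i'
            by_cases hi : i' = i
            · subst hi; simp [e]
            · rw [h2 i' hi]
              simp [e, Function.update_of_ne hi]
        rw [hd']
        apply Finset.mem_image_of_mem
        exact Finset.mem_insert_of_mem (hJ _ hud)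
      · exact absurd h2 hd)
    rw [h0, Finset.sum_image (fun _ _ _ _ h => he h)] at h1
    rw [h1]
    apply Finset.sum_congr rfl
    intro j _
    have h2 : (⟨single (e j) (w'.1.f (e j)), rfl⟩ : Bs) = (⟨single (e j) v, rfl⟩ : Bs) ^ u j := by
      apply Subtype.ext
      change single (e j) (w.f (e j)) = ((⟨single (e j) v, rfl⟩ : Bs) ^ u j : Bs).1
      rw [hwe, map_zpow]
      rfl
    rw [h2, map_zpow, toAdd_zpow]
    rfl
  -- the homomorphism `Ψ`
  let Ψ : Wr V Y →* Wr V E :=
    { toFun := fun a =>
        { f := fun d => Φ d.2 (a.f d.1)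
          fin := by
            apply (a.fin.prod S.finite_toSet).subset
            intro d hd
            refine ⟨?_, ?_⟩
            · intro h1
              apply hd
              change Φ d.2 (a.f d.1) = 1
              rw [h1, map_one]
            · by_contra h1
              apply hd
              change Φ d.2 (a.f d.1) = 1
              rw [hΦS _ h1]
              rfl
          t := (a.t, 1) }
      map_one' := by
        apply ext'
        · intro d
          change Φ d.2 1 = 1
          rw [map_one]
        · rfl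
      map_mul' := by
        intro a b
        apply ext'
        · intro d
          rw [mul_f]
          change Φ d.2 ((a * b).f d.1) = Φ d.2 (a.f d.1) * Φ ((a.t, (1 : ι → H₀))⁻¹ * d).2
            (b.f ((a.t, (1 : ι → H₀))⁻¹ * d).1)
          rw [mul_f, map_mul]
          have h1 : (a.t, (1 : ι → H₀))⁻¹ * d = (a.t⁻¹ * d.1, d.2) := by
            apply Prod.ext
            · rfl
            · change (1 : ι → H₀)⁻¹ * d.2 = d.2
              rw [inv_one, one_mul]
          rw [h1]
        · rw [mul_t]
          change (a.t * b.t, (1 : ι → H₀)) = (a.t, 1) * (b.t, 1)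
          simp }
  have hΨf : ∀ (a : Wr V Y) (d : E), (Ψ a).f d = Φ d.2 (a.f d.1) := fun _ _ => rfl
  have hΨt : ∀ (a : Wr V Y), (Ψ a).t = (a.t, 1) := fun _ => rfl
  have hsingle : ∀ (y : Y) (v : V), Ψ (single y v) ∈ R := by
    intro y v
    have ht : (Ψ (single y v)).t = 1 := rfl
    let w' : Bs := ⟨Ψ (single y v), ht⟩
    rw [← hψ w']
    have h1 := hom_eq_sum ψ (S.image (fun h => (y, h))) w' (by
      intro d hd
      have hd' : Φ d.2 ((single y v).f d.1) ≠ 1 := hd
      rw [Finset.mem_image]
      by_cases hy : d.1 = y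
      · refine ⟨d.2, ?_, ?_⟩
        · by_contra hS
          apply hd'
          rw [hΦS _ hS]
          rfl
        · exact Prod.ext hy.symm rfl
      · exfalso
        apply hd'
        rw [single_f_of_ne hy, map_one])
    rw [h1, Finset.sum_image (by
      intro a _ b _ hab
      exact congrArg Prod.snd hab)]
    have h2 := hΦ Q (B y) (hB y) v
    rw [← h2]
    apply Finset.sum_congr rfl
    intro h _
    have h3 : w'.1.f (y, h) = Φ h v := by
      change Φ h ((single y v).f y) = Φ h v
      rw [single_f_self]
    rw [h3]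
    rfl
  have hbase : ∀ a : Wr V Y, a.t = 1 → Ψ a ∈ R := by
    intro a ha
    have := mem_of_single_mem (R.comap Ψ) a ha (fun c => hsingle c _)
    exact this
  have hall : ∀ a : Wr V Y, a.t ∈ K → Ψ a ∈ R := by
    intro a ha
    have h1 : a = (a * (top V Y a.t)⁻¹) * top V Y a.t := by group
    rw [h1, map_mul]
    apply R.mul_mem
    · apply hbase
      simp
    · have h2 : Ψ (top V Y a.t) = top V E (a.t, 1) := by
        apply ext'
        · intro d
          rw [hΨf]
          simp
        · rfl
      rw [h2]
      exact hK _ ha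
  let j : Wr V K →* Wr V Y := mapTop K.subtype (Subgroup.subtype_injective K)
  refine ⟨(Ψ.comp j).codRestrict R (fun a => hall _ a.t.2), ?_⟩
  intro a b hab
  apply mapTop_injective K.subtype (Subgroup.subtype_injective K)
  have hab' : Ψ (j a) = Ψ (j b) := congrArg Subtype.val hab
  apply ext'
  · intro y
    have h1 := congrArg (fun w : Wr V E => w.f (y, h₀)) hab'
    simp only [hΨf, hh₀] at h1
    exact h1
  · have h1 := congrArg Wr.t hab'
    rw [hΨt, hΨt] at h1
    exact congrArg Prod.fst h1

end Wr

end Pool.Agent.H11.QV
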