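import Pool.Agent.H11.QVGrid
import Pool.Agent.H11.QVAbel

/-!
# The family of endomorphisms
-/

set_option autoImplicit false

namespace Pool.Agent.H11.Grid

theorem exists_family.{v, w} {H₀ : Type v} [DecidableEq H₀] (J : Finset H₀) (u : H₀ → ℤ) (j₀ : H₀)
    (hj₀ : j₀ ∈ J) (hu : u j₀ = 1) (V : Type v) [Group V] [Group.FG V] :
    ∃ (ι : Type) (_ : Fintype ι) (_ : DecidableEq ι) (_ : Nonempty ι) (S : Finset (ι → H₀))
      (Φ : (ι → H₀) → (V →* V)), (∀ h, h ∉ S → Φ h = 1) ∧ (∃ h₀, Φ h₀ = MonoidHom.id V) ∧
        ∀ (Q : Type w) [AddCommGroup Q] (B : (ι → H₀) → (V →* Multiplicative Q)),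
          (∀ (v : V) (i : ι) (c : ι → H₀),
            ∑ j ∈ J, u j • (B (Function.update c i j) v).toAdd = 0) →
          ∀ v : V, ∑ h ∈ S, (B h (Φ h v)).toAdd = 0 := by
  classical
  obtain ⟨m, r, χ, b, hm, hr, hdata⟩ := exists_data.{v, w} V
  let J' := {j : H₀ // j ∈ J}
  let u' : J' → ℤ := fun j => u j.1
  let j₀' : J' := ⟨j₀, hj₀⟩
  obtain ⟨ι₀, _, _, P, ν, hPne, hgood⟩ := good.{v, w} u' j₀' hu m hm
  let ι := ι₀ ⊕ Fin r
  let co : (ι₀ → J') → (ι₀ → H₀) := fun c i => (c i).1
  let base : Fin r → H₀ := fun _ => j₀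
  let Λ := (ι₀ → J') ⊕ ((ι₀ → J') × Fin r × {j : J' // j ≠ j₀'})
  let γ : Λ → (ι → H₀) := fun l => match l with
    | Sum.inl c => Sum.elim (co c) base
    | Sum.inr (c, a, j) => Sum.elim (co c) (Function.update base a j.1.1)
  have hco : Function.Injective co := by
    intro c d h
    funext i
    exact Subtype.ext (congrFun h i)
  have hγ : Function.Injective γ := by
    rintro (c | ⟨c, a, j⟩) (d | ⟨d, a', j'⟩) h
    · congr 1
      apply hco
      funext i
      exact congrFun h (Sum.inl i)
    · exfalso
      have h1 := congrFun h (Sum.inr a')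
      simp only [γ, Sum.elim_inr, Function.update_self, base] at h1
      exact j'.2 (Subtype.ext h1.symm)
    · exfalso
      have h1 := congrFun h (Sum.inr a)
      simp only [γ, Sum.elim_inr, Function.update_self, base] at h1
      exact j.2 (Subtype.ext h1)
    · have h1 : c = d := by
        apply hco
        funext i
        exact congrFun h (Sum.inl i)
      have h2 : a = a' := by
        by_contra hne
        have h3 := congrFun h (Sum.inr a)
        simp only [γ, Sum.elim_inr, Function.update_self, Function.update_of_ne hne, base] at h3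
        exact j.2 (Subtype.ext h3)
      subst h1 h2
      have h3 := congrFun h (Sum.inr a)
      simp only [γ, Sum.elim_inr, Function.update_self] at h3
      have h4 : j = j' := Subtype.ext (Subtype.ext h3)
      rw [h4]
  let φ : Λ → (V →* V) := fun l => match l with
    | Sum.inl c => if c ∈ P then MonoidHom.id V else 1
    | Sum.inr (c, a, j) => (zpowersHom V (b a ^ ((m : ℤ) * ν c * u j.1.1))).comp (χ a)
  let Φ : (ι → H₀) → (V →* V) := Function.extend γ φ (fun _ => 1)
  have hΦγ : ∀ l, Φ (γ l) = φ l := fun l => hγ.extend_apply _ _ _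
  refine ⟨ι, inferInstance, inferInstance, ⟨Sum.inr ⟨0, Nat.pos_of_ne_zero hr⟩⟩,
    Finset.univ.image γ, Φ, ?_, ?_, ?_⟩
  · intro h hh
    apply Function.extend_apply'
    rintro ⟨l, hl⟩
    apply hh
    rw [Finset.mem_image]
    exact ⟨l, Finset.mem_univ _, hl⟩
  · obtain ⟨c, hc⟩ := hPne
    refine ⟨γ (Sum.inl c), (hΦγ (Sum.inl c)).trans ?_⟩
    exact if_pos hc
  · intro Q _ B hB v
    rw [Finset.sum_image (fun _ _ _ _ h => hγ h), Fintype.sum_sum_type]
    simp only [hΦγ]
    -- the values on the grid
    let β : V → (ι₀ → J') → Q := fun w c => (B (Sum.elim (co c) base) w).toAdd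
    have hrel : ∀ w, Rel u' (β w) := by
      intro w i c
      have h1 := hB w (Sum.inl i) (Sum.elim (co c) base)
      rw [← Finset.sum_coe_sort] at h1
      rw [← h1]
      apply Finset.sum_congr rfl
      intro j _
      simp only [β, u']
      congr 4
      rw [Sum.update_elim_inl]
      congr 1
      funext i'
      by_cases hi : i' = i
      · subst hi; simp [co]
      · simp [co, Function.update_of_ne hi]
    have hφ1 : ∀ c, c ∈ P → φ (Sum.inl c) = MonoidHom.id V := fun c hc => if_pos hc
    have hφ2 : ∀ c, c ∉ P → φ (Sum.inl c) = 1 := fun c hc => if_neg hc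
    have hfirst : ∑ c, (B (γ (Sum.inl c)) (φ (Sum.inl c) v)).toAdd =
        ∑ c, ν c • ((m : ℤ) • ∑ a, (χ a v).toAdd • β (b a) c) := by
      have h1 : ∑ c, (B (γ (Sum.inl c)) (φ (Sum.inl c) v)).toAdd = ∑ c ∈ P, β v c := by
        symm
        apply Finset.sum_subset_zero_on_sdiff (Finset.subset_univ P)
        · intro c hc
          have hc' : c ∉ P := by
            rw [Finset.mem_sdiff] at hc
            exact hc.2
          rw [hφ2 c hc', MonoidHom.one_apply, map_one, toAdd_one]
        · intro c hc
          rw [hφ1 c hc]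
          rfl
      rw [h1, hgood Q (β v) (hrel v), Finset.smul_sum]
      apply Finset.sum_congr rfl
      intro c _
      rw [smul_comm]
      congr 1
      exact hdata Q (B (Sum.elim (co c) base)) v
    have hsecond : ∑ l : (ι₀ → J') × Fin r × {j : J' // j ≠ j₀'},
        (B (γ (Sum.inr l)) (φ (Sum.inr l) v)).toAdd =
        - ∑ c, ν c • ((m : ℤ) • ∑ a, (χ a v).toAdd • β (b a) c) := by
      rw [Fintype.sum_prod_type, ← Finset.sum_neg_distrib]
      apply Finset.sum_congr rfl
      intro c _
      rw [Fintype.sum_prod_type, Finset.smul_sum, Finset.smul_sum, ← Finset.sum_neg_distrib]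
      apply Finset.sum_congr rfl
      intro a _
      -- the relation in the fresh coordinate
      have h1 := hB (b a) (Sum.inr a) (Sum.elim (co c) base)
      rw [← Finset.sum_coe_sort] at h1
      have h2 := Fintype.sum_subtype_add_sum_subtype (fun j : J' => j ≠ j₀')
        (fun j : J' => u j.1 • (B (Function.update (Sum.elim (co c) base) (Sum.inr a) j.1) (b a)).toAdd)
      have h1' : ∑ j : J', u j.1 •
          (B (Function.update (Sum.elim (co c) base) (Sum.inr a) j.1) (b a)).toAdd = 0 := h1
      rw [h1'] at h2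
      have h3 : ∑ j : {j : J' // ¬ j ≠ j₀'}, u j.1.1 •
          (B (Function.update (Sum.elim (co c) base) (Sum.inr a) j.1.1) (b a)).toAdd = β (b a) c := by
        rw [Fintype.sum_eq_single (⟨j₀', by simp⟩ : {j : J' // ¬ j ≠ j₀'})
          (fun x hx => absurd (by
            rcases x with ⟨x, hx'⟩
            simp only [ne_eq, not_not] at hx'
            exact Subtype.ext hx') hx)]
        simp only [j₀', hu, one_smul, β]
        congr 2
        have : Function.update (Sum.elim (co c) base) (Sum.inr a) j₀ = Sum.elim (co c) base := by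
          rw [Function.update_eq_iff]
          simp [base]
        rw [this]
      rw [h3] at h2
      have h4 : ∑ j : {j : J' // j ≠ j₀'}, (B (γ (Sum.inr (c, a, j))) (φ (Sum.inr (c, a, j)) v)).toAdd =
          ((m : ℤ) * ν c * (χ a v).toAdd) • ∑ j : {j : J' // j ≠ j₀'}, u j.1.1 •
          (B (Function.update (Sum.elim (co c) base) (Sum.inr a) j.1.1) (b a)).toAdd := by
        rw [Finset.smul_sum]
        apply Finset.sum_congr rfl
        intro j _
        have h5 : γ (Sum.inr (c, a, j)) = Function.update (Sum.elim (co c) base) (Sum.inr a) j.1.1 :=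
          Sum.update_elim_inr.symm
        rw [h5]
        simp only [φ, MonoidHom.comp_apply, zpowersHom_apply, map_zpow, toAdd_zpow]
        rw [smul_smul, smul_smul]
        congr 1
        ring
      rw [h4, eq_neg_of_add_eq_zero_left h2, smul_neg]
      congr 1
      simp only [smul_smul]
      congr 1
      ring
    rw [hfirst, hsecond]
    exact add_neg_cancel _

end Pool.Agent.H11.Grid
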