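import Mathlib

/-!
# A combinatorial lemma on grids

Let `J` be a finite type, `u : J → ℤ` with `u j₀ = 1`. A function `β : (ι → J) → Q` with values
in an abelian group satisfies the grid relation if `∑ j, u j • β (update c i j) = 0` for all
`c`, `i`. For every `m ≠ 0` there are `ι`, a non-empty `P` and integers `ν` such that
`∑ c ∈ P, β c = m • ∑ c, ν c • β c` for all such `β`.
-/

set_option autoImplicit false

namespace Pool.Agent.H11.Grid

open Finset

variable {J : Type*} [Fintype J] [DecidableEq J] (u : J → ℤ) (j₀ : J)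

/-- The grid relation. -/
def Rel {ι : Type*} [DecidableEq ι] {Q : Type*} [AddCommGroup Q] (β : (ι → J) → Q) : Prop :=
  ∀ (i : ι) (c : ι → J), ∑ j, u j • β (Function.update c i j) = 0

theorem exists_reduction.{v} (hu : u j₀ = 1) (t : ℕ) :
    ∃ M : (Fin t → J) → (Fin t → {j : J // j ≠ j₀}) → ℤ, ∀ (Q : Type v) [AddCommGroup Q]
      (β : (Fin t → J) → Q), Rel u β →
        ∀ c, β c = ∑ c' : Fin t → {j : J // j ≠ j₀}, M c c' • β (fun i => (c' i).1) := by
  induction t with
  | zero =>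
    refine ⟨fun _ _ => 1, fun Q _ β _ c => ?_⟩
    rw [Fintype.sum_unique]
    rw [one_smul]
    congr 1
    funext i
    exact i.elim0
  | succ t ih =>
    obtain ⟨M, hM⟩ := ih
    let ρ : J → {j : J // j ≠ j₀} → ℤ := fun j j' => if j = j₀ then - u j'.1 else
      if j = j'.1 then 1 else 0
    refine ⟨fun c c' => ρ (c 0) (c' 0) * M (Fin.tail c) (Fin.tail c'), fun Q _ β hβ c => ?_⟩
    -- first coordinate
    have h1 : ∀ (a : J) (c₁ : Fin t → J), β (Fin.cons a c₁) =
        ∑ a' : {j : J // j ≠ j₀}, ρ a a' • β (Fin.cons a'.1 c₁) := by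
      intro a c₁
      by_cases ha : a = j₀
      · have h2 := hβ 0 (Fin.cons a c₁)
        simp only [Fin.update_cons_zero] at h2
        have h3 : ∑ j, u j • β (Fin.cons j c₁) = β (Fin.cons j₀ c₁) +
            ∑ a' : {j : J // j ≠ j₀}, u a'.1 • β (Fin.cons a'.1 c₁) := by
          have h4 := Fintype.sum_subtype_add_sum_subtype (fun j => j ≠ j₀)
            (fun j => u j • β (Fin.cons j c₁ : Fin (t+1) → J))
          rw [← h4, add_comm]
          congr 1
          have huniq : ∀ i : {x // ¬ x ≠ j₀}, i = ⟨j₀, by simp⟩ := by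
            rintro ⟨x, hx⟩
            simp only [ne_eq, not_not] at hx
            exact Subtype.ext hx
          rw [Fintype.sum_eq_single (⟨j₀, by simp⟩ : {x // ¬ x ≠ j₀})
            (fun b hb => absurd (huniq b) hb)]
          simp [hu]
        rw [h3] at h2
        rw [ha, eq_neg_of_add_eq_zero_left h2, ← Finset.sum_neg_distrib]
        apply Finset.sum_congr rfl
        intro a' _
        simp [ρ]
      · have h2 : ∀ a' : {j : J // j ≠ j₀}, ρ a a' = if (⟨a, ha⟩ : {j : J // j ≠ j₀}) = a' then 1 else 0 := by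
          intro a'
          simp only [ρ, ha, if_false]
          congr 1
          simp only [eq_iff_iff]
          constructor
          · intro h; exact Subtype.ext h
          · intro h; exact congrArg Subtype.val h
        simp only [h2, ite_smul, one_smul, zero_smul, Finset.sum_ite_eq, Finset.mem_univ, if_true]
    have h2 : ∀ (a : J), Rel u (fun c₁ : Fin t → J => β (Fin.cons a c₁ : Fin (t+1) → J)) := by
      intro a i c₁
      have := hβ i.succ (Fin.cons a c₁)
      simp only [← Fin.cons_update] at this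
      exact this
    have h3 : c = Fin.cons (c 0) (Fin.tail c) := (Fin.cons_self_tail c).symm
    conv_lhs => rw [h3]
    rw [h1]
    have h4 : ∀ a' : {j : J // j ≠ j₀}, ρ (c 0) a' • β (Fin.cons a'.1 (Fin.tail c) : Fin (t+1) → J) =
        ∑ c' : Fin t → {j : J // j ≠ j₀}, (ρ (c 0) a' * M (Fin.tail c) c') •
          β (Fin.cons a'.1 (fun i => (c' i).1) : Fin (t+1) → J) := by
      intro a'
      rw [hM Q _ (h2 a'.1) (Fin.tail c), Finset.smul_sum]
      apply Finset.sum_congr rfl
      intro c' _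
      rw [mul_smul]
    simp_rw [h4]
    rw [← Fintype.sum_prod_type']
    symm
    apply Fintype.sum_equiv (Fin.consEquiv (fun _ => {j : J // j ≠ j₀})).symm
    intro c'
    simp only [Fin.consEquiv, Equiv.coe_fn_symm_mk]
    congr 1
    congr 1
    funext i
    refine Fin.cases ?_ ?_ i
    · rfl
    · intro i; rfl

theorem exists_pow_lt (n p : ℕ) (hn : 0 < n) : ∃ t : ℕ, p * (n - 1) ^ t < n ^ t := by
  have h1 : Filter.Tendsto (fun t : ℕ => (((n - 1 : ℕ) : ℝ) / n) ^ t) Filter.atTop (nhds 0) := by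
    apply tendsto_pow_atTop_nhds_zero_of_lt_one
    · positivity
    · rw [div_lt_one (by exact_mod_cast hn)]
      exact_mod_cast (by omega : n - 1 < n)
  have h2 : ∀ᶠ t : ℕ in Filter.atTop, (((n - 1 : ℕ) : ℝ) / n) ^ t < 1 / (p + 1) := by
    apply h1.eventually_lt_const
    positivity
  obtain ⟨t, ht⟩ := h2.exists
  refine ⟨t, ?_⟩
  have hnpos : (0 : ℝ) < (n : ℝ) ^ t := by positivity
  rw [div_pow, div_lt_div_iff₀ hnpos (by positivity)] at ht
  have h3 : ((p * (n - 1) ^ t : ℕ) : ℝ) < ((n ^ t : ℕ) : ℝ) := by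
    push_cast
    have : (0 : ℝ) ≤ ((n - 1 : ℕ) : ℝ) ^ t := by positivity
    nlinarith
  exact_mod_cast h3

theorem prime_case.{v} (hu : u j₀ = 1) (p : ℕ) (hp : p.Prime) :
    ∃ (t : ℕ) (P : Finset (Fin t → J)) (ν : (Fin t → J) → ℤ), P.Nonempty ∧
      ∀ (Q : Type v) [AddCommGroup Q] (β : (Fin t → J) → Q), Rel u β →
        ∑ c ∈ P, β c = (p : ℤ) • ∑ c, ν c • β c := by
  classical
  haveI : Fact p.Prime := ⟨hp⟩
  have hcard : 0 < Fintype.card J := Fintype.card_pos_iff.2 ⟨j₀⟩
  obtain ⟨t, ht⟩ := exists_pow_lt (Fintype.card J) (p - 1) hcard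
  obtain ⟨M, hM⟩ := exists_reduction.{_, v} u j₀ hu t
  -- the system of equations
  let f : (Fin t → {j : J // j ≠ j₀}) → MvPolynomial (Fin t → J) (ZMod p) := fun c' =>
    ∑ c, MvPolynomial.C (M c c' : ZMod p) * MvPolynomial.X c ^ (p - 1)
  have hdeg : ∀ c', (f c').totalDegree ≤ p - 1 := by
    intro c'
    apply MvPolynomial.totalDegree_finsetSum_le
    intro c _
    refine (MvPolynomial.totalDegree_mul _ _).trans ?_
    rw [MvPolynomial.totalDegree_C, zero_add, MvPolynomial.totalDegree_X_pow]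
  have hsum : (∑ c', (f c').totalDegree) < Fintype.card (Fin t → J) := by
    calc (∑ c', (f c').totalDegree) ≤ ∑ _c' : (Fin t → {j : J // j ≠ j₀}), (p - 1) :=
          Finset.sum_le_sum (fun c' _ => hdeg c')
      _ = (p - 1) * (Fintype.card J - 1) ^ t := by
          rw [Finset.sum_const, Finset.card_univ, Fintype.card_pi_const, smul_eq_mul]
          have : Fintype.card {j : J // j ≠ j₀} = Fintype.card J - 1 := by
            rw [Fintype.card_subtype_compl, Fintype.card_subtype_eq]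
          rw [this]
          ring
      _ < Fintype.card J ^ t := ht
      _ = Fintype.card (Fin t → J) := (Fintype.card_pi_const _ _).symm
  have hdvd := char_dvd_card_solutions_of_fintype_sum_lt p hsum
  -- a non-zero solution
  have hzero : ∀ c', MvPolynomial.eval (0 : (Fin t → J) → ZMod p) (f c') = 0 := by
    intro c'
    simp only [f, map_sum, map_mul, MvPolynomial.eval_C, map_pow, MvPolynomial.eval_X,
      Pi.zero_apply]
    apply Finset.sum_eq_zero
    intro c _
    rw [zero_pow (by have := hp.two_le; omega), mul_zero]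
  have hex : ∃ x : (Fin t → J) → ZMod p, x ≠ 0 ∧ ∀ c', MvPolynomial.eval x (f c') = 0 := by
    by_contra hcon
    push Not at hcon
    have hone : Fintype.card {x : (Fin t → J) → ZMod p // ∀ c', MvPolynomial.eval x (f c') = 0} = 1 := by
      rw [Fintype.card_eq_one_iff]
      refine ⟨⟨0, hzero⟩, ?_⟩
      rintro ⟨x, hx⟩
      apply Subtype.ext
      by_contra hne
      obtain ⟨c', hc'⟩ := hcon x hne
      exact hc' (hx c')
    rw [hone] at hdvd
    exact hp.one_lt.ne' (Nat.dvd_one.1 hdvd)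
  obtain ⟨x, hx0, hx⟩ := hex
  let P : Finset (Fin t → J) := Finset.univ.filter (fun c => x c ≠ 0)
  have hPne : P.Nonempty := by
    by_contra h
    apply hx0
    funext c
    by_contra hc
    apply h
    exact ⟨c, by simp only [P, Finset.mem_filter, Finset.mem_univ, true_and]; exact hc⟩
  have hPdvd : ∀ c', (p : ℤ) ∣ ∑ c ∈ P, M c c' := by
    intro c'
    rw [← ZMod.intCast_zmod_eq_zero_iff_dvd]
    have h1 := hx c'
    simp only [f, map_sum, map_mul, MvPolynomial.eval_C, map_pow, MvPolynomial.eval_X] at h1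
    have h2 : ∑ c, (M c c' : ZMod p) * x c ^ (p - 1) = ∑ c ∈ P, (M c c' : ZMod p) := by
      rw [Finset.sum_filter]
      apply Finset.sum_congr rfl
      intro c _
      split_ifs with hc
      · rw [ZMod.pow_card_sub_one_eq_one hc, mul_one]
      · simp only [ne_eq, not_not] at hc
        rw [hc, zero_pow (by have := hp.two_le; omega), mul_zero]
    rw [h2] at h1
    push_cast
    exact h1
  choose q hq using hPdvd
  -- the integer coefficients
  let ν : (Fin t → J) → ℤ := fun c => if h : ∀ i, c i ≠ j₀ then q (fun i => ⟨c i, h i⟩) else 0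
  refine ⟨t, P, ν, hPne, fun Q _ β hβ => ?_⟩
  have h1 : ∑ c ∈ P, β c = ∑ c' : Fin t → {j : J // j ≠ j₀}, (∑ c ∈ P, M c c') • β (fun i => (c' i).1) := by
    rw [Finset.sum_congr rfl (fun c _ => hM Q β hβ c)]
    rw [Finset.sum_comm]
    apply Finset.sum_congr rfl
    intro c' _
    rw [Finset.sum_smul]
  rw [h1]
  have h2 : ∑ c, ν c • β c = ∑ c' : Fin t → {j : J // j ≠ j₀}, q c' • β (fun i => (c' i).1) := by
    symm
    apply Fintype.sum_of_injective (fun (c' : Fin t → {j : J // j ≠ j₀}) => (fun i => (c' i).1 : Fin t → J))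
    · intro a b hab
      funext i
      exact Subtype.ext (congrFun hab i)
    · intro c hc
      have : ¬ ∀ i, c i ≠ j₀ := by
        intro h
        apply hc
        exact ⟨fun i => ⟨c i, h i⟩, rfl⟩
      simp only [ν]
      rw [dif_neg this, zero_smul]
    · intro c'
      simp only [ν]
      rw [dif_pos (fun i => (c' i).2)]
  rw [h2, Finset.smul_sum]
  apply Finset.sum_congr rfl
  intro c' _
  rw [hq c', mul_smul]

/-- The grid statement for the modulus `m`. -/
def Good.{v} (m : ℕ) : Prop :=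
  ∃ (ι : Type) (_ : Fintype ι) (_ : DecidableEq ι) (P : Finset (ι → J)) (ν : (ι → J) → ℤ),
    P.Nonempty ∧
      ∀ (Q : Type v) [AddCommGroup Q] (β : (ι → J) → Q), Rel u β →
        ∑ c ∈ P, β c = (m : ℤ) • ∑ c, ν c • β c

theorem good_one.{v} : Good.{_, v} u 1 := by
  refine ⟨Empty, inferInstance, inferInstance, Finset.univ, fun _ => 1, ?_, fun Q _ β _ => ?_⟩
  · exact Finset.univ_nonempty
  · simp

theorem Good.mul.{v} {m₁ m₂ : ℕ} (h1 : Good.{_, v} u m₁) (h2 : Good.{_, v} u m₂) :
    Good.{_, v} u (m₁ * m₂) := by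
  classical
  obtain ⟨ι₁, hf1, hd1, P₁, ν₁, hP1, h1⟩ := h1
  obtain ⟨ι₂, hf2, hd2, P₂, ν₂, hP2, h2⟩ := h2
  let e : (ι₁ ⊕ ι₂ → J) ≃ (ι₁ → J) × (ι₂ → J) := Equiv.sumArrowEquivProdArrow ι₁ ι₂ J
  refine ⟨ι₁ ⊕ ι₂, inferInstance, inferInstance, (P₁ ×ˢ P₂).map e.symm.toEmbedding,
    fun c => ν₁ (e c).1 * ν₂ (e c).2, ?_, fun Q _ β hβ => ?_⟩
  · rw [Finset.map_nonempty]
    exact hP1.product hP2
  · rw [Finset.sum_map]
    have hes : ∀ (p : (ι₁ → J) × (ι₂ → J)), e.symm.toEmbedding p = Sum.elim p.1 p.2 := by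
      intro p; rfl
    simp only [hes]
    rw [Finset.sum_product_right]
    have hr1 : ∀ c₂ : ι₂ → J, Rel u (fun c₁ : ι₁ → J => β (Sum.elim c₁ c₂)) := by
      intro c₂ i c₁
      have := hβ (Sum.inl i) (Sum.elim c₁ c₂)
      simp only [Sum.update_elim_inl] at this
      exact this
    have hr2 : ∀ c₁ : ι₁ → J, Rel u (fun c₂ : ι₂ → J => β (Sum.elim c₁ c₂)) := by
      intro c₁ i c₂
      have := hβ (Sum.inr i) (Sum.elim c₁ c₂)
      simp only [Sum.update_elim_inr] at this
      exact this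
    have s1 : ∑ c₂ ∈ P₂, ∑ c₁ ∈ P₁, β (Sum.elim c₁ c₂) =
        ∑ c₂ ∈ P₂, (m₁ : ℤ) • ∑ c₁, ν₁ c₁ • β (Sum.elim c₁ c₂) :=
      Finset.sum_congr rfl (fun c₂ _ => h1 Q _ (hr1 c₂))
    rw [s1, ← Finset.smul_sum, Finset.sum_comm]
    have s2 : ∑ c₁, ∑ c₂ ∈ P₂, ν₁ c₁ • β (Sum.elim c₁ c₂) =
        ∑ c₁, ν₁ c₁ • ((m₂ : ℤ) • ∑ c₂, ν₂ c₂ • β (Sum.elim c₁ c₂)) := by
      apply Finset.sum_congr rfl
      intro c₁ _
      rw [← Finset.smul_sum, h2 Q _ (hr2 c₁)]
    rw [s2]
    have s3 : ∑ c : ι₁ ⊕ ι₂ → J, (ν₁ (e c).1 * ν₂ (e c).2) • β c =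
        ∑ c₁, ∑ c₂, (ν₁ c₁ * ν₂ c₂) • β (Sum.elim c₁ c₂) := by
      rw [← Fintype.sum_prod_type']
      apply Fintype.sum_equiv e
      intro c
      congr 1
      exact congrArg β (e.symm_apply_apply c).symm
    rw [s3]
    push_cast
    rw [mul_smul]
    congr 1
    rw [Finset.smul_sum]
    apply Finset.sum_congr rfl
    intro c₁ _
    rw [smul_comm, Finset.smul_sum]
    congr 1
    apply Finset.sum_congr rfl
    intro c₂ _
    rw [mul_smul]

theorem good.{v} (hu : u j₀ = 1) (m : ℕ) (hm : m ≠ 0) : Good.{_, v} u m := by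
  induction m using Nat.recOnMul with
  | zero => exact absurd rfl hm
  | one => exact good_one u
  | prime p hp =>
    obtain ⟨t, P, ν, h⟩ := prime_case.{_, v} u j₀ hu p hp
    exact ⟨Fin t, inferInstance, inferInstance, P, ν, h⟩
  | mul a b iha ihb =>
    exact (iha (by rintro rfl; simp at hm)).mul u (ihb (by rintro rfl; simp at hm))

end Pool.Agent.H11.Grid
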