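import Pool.Agent.H11.QVWreath

/-!
# Laws and their length
-/

set_option autoImplicit false

universe u

namespace Pool.Agent.H11.QV

open Quasivariety
open FreeGroup (of lift_mk mul_mk mk_toWord one_eq_mk lift_apply_of toWord)

/-- `w = 1` is a law of `X`. -/
def IsLaw (X : Quasivariety.{u}) {α : Type*} (w : FreeGroup α) : Prop :=
  ∀ (G : Type u) [Group G], X.Mem G → ∀ x : α → G, FreeGroup.lift x w = 1

/-- `w = 1` holds in all finitely generated members of `X`. -/
def IsLawFG (X : Quasivariety.{u}) {α : Type*} (w : FreeGroup α) : Prop :=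
  ∀ (G : Type u) [Group G], Group.FG G → X.Mem G → ∀ x : α → G, FreeGroup.lift x w = 1

variable {X Y Z : Quasivariety.{u}}

theorem lift_mk_congr {α : Type*} {G : Type*} [Group G] {x y : α → G} {L : List (α × Bool)}
    (h : ∀ p ∈ L, x p.1 = y p.1) : FreeGroup.lift x (FreeGroup.mk L) = FreeGroup.lift y (FreeGroup.mk L) := by
  rw [lift_mk, lift_mk]
  congr 1
  apply List.map_congr_left
  intro p hp
  rw [h p hp]

theorem IsLawFG.isLaw {α : Type*} {w : FreeGroup α} (h : IsLawFG X w) : IsLaw X w := by
  classical
  intro G _ hG x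
  obtain ⟨L, rfl⟩ : ∃ L : List (α × Bool), FreeGroup.mk L = w := ⟨w.toWord, mk_toWord⟩
  -- truncate the assignment
  let S : Finset α := (L.map Prod.fst).toFinset
  let x' : α → G := fun a => if a ∈ S then x a else 1
  have hxx : FreeGroup.lift x (FreeGroup.mk L) = FreeGroup.lift x' (FreeGroup.mk L) := by
    apply lift_mk_congr
    intro p hp
    have : p.1 ∈ S := by
      simp only [S, List.mem_toFinset, List.mem_map]
      exact ⟨p, hp, rfl⟩
    simp [x', this]
  let K : Subgroup G := Subgroup.closure (Set.range x')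
  have hfin : (Set.range x').Finite := by
    apply ((S.finite_toSet.image x).union (Set.finite_singleton 1)).subset
    rintro _ ⟨a, rfl⟩
    by_cases ha : a ∈ S
    · left
      exact ⟨a, ha, by simp [x', ha]⟩
    · right
      simp [x', ha]
  have hK : K.FG := by
    rw [Subgroup.fg_iff]
    exact ⟨Set.range x', rfl, hfin⟩
  have hmem : ∀ i, x' i ∈ K := fun i => Subgroup.subset_closure ⟨i, rfl⟩
  have h1 := h K ((Group.fg_iff_subgroup_fg K).2 hK) (mem_of_injective K.subtype (Subgroup.subtype_injective K) hG)
    (fun i => ⟨x' i, hmem i⟩)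
  rw [hxx]
  have h2 := hom_lift K.subtype (fun i => (⟨x' i, hmem i⟩ : K)) (FreeGroup.mk L)
  rw [h1, map_one] at h2
  exact h2.symm

theorem IsLaw.hom {α β : Type*} {w : FreeGroup α} (h : IsLaw X w)
    (ρ : FreeGroup α →* FreeGroup β) : IsLaw X (ρ w) := by
  intro G _ hG x
  have : FreeGroup.lift x (ρ w) = FreeGroup.lift (fun a => FreeGroup.lift x (ρ (of a))) w := by
    have h1 : (FreeGroup.lift x).comp ρ = FreeGroup.lift (fun a => FreeGroup.lift x (ρ (of a))) := by
      apply FreeGroup.ext_hom
      intro a
      simp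
    rw [← h1]
    rfl
  rw [this]
  exact h G hG _

theorem IsLaw.conj {α : Type*} {w : FreeGroup α} (c : FreeGroup α)
    (h : IsLaw X (c * w * c⁻¹)) : IsLaw X w := by
  intro G _ hG x
  have h1 := h G hG x
  rw [map_mul, map_mul, map_inv] at h1
  have h2 : FreeGroup.lift x w = (FreeGroup.lift x c)⁻¹ * (FreeGroup.lift x c * FreeGroup.lift x w *
    (FreeGroup.lift x c)⁻¹) * FreeGroup.lift x c := by group
  rw [h2, h1]
  group

/-- Renaming finitely many variables by an injective map. -/
theorem exists_rename {α : Type*} (L : List (α × Bool)) (hne : L ≠ []) :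
    ∃ (n : ℕ) (j : α → Fin n) (j' : Fin n → α), ∀ p ∈ L, j' (j p.1) = p.1 := by
  classical
  let S : Finset α := (L.map Prod.fst).toFinset
  have hS : ∀ p ∈ L, p.1 ∈ S := by
    intro p hp
    simp only [S, List.mem_toFinset, List.mem_map]
    exact ⟨p, hp, rfl⟩
  obtain ⟨p0, hp0⟩ := List.exists_mem_of_ne_nil L hne
  let e : S ≃ Fin (Fintype.card S) := Fintype.equivFin S
  refine ⟨Fintype.card S, fun a => if h : a ∈ S then e ⟨a, h⟩ else e ⟨p0.1, hS p0 hp0⟩,
    fun i => (e.symm i : α), fun p hp => ?_⟩
  simp [hS p hp]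

theorem exists_law_fin {α : Type*} {L : List (α × Bool)} (h1 : FreeGroup.mk L ≠ 1) (h2 : IsLaw X (FreeGroup.mk L)) :
    ∃ (n : ℕ) (L' : List (Fin n × Bool)), L'.length = L.length ∧ FreeGroup.mk L' ≠ 1 ∧ IsLaw X (FreeGroup.mk L') := by
  have hne : L ≠ [] := by
    rintro rfl
    exact h1 rfl
  obtain ⟨n, j, j', hj⟩ := exists_rename L hne
  refine ⟨n, L.map (fun p => (j p.1, p.2)), by simp, ?_, ?_⟩
  · intro h
    apply h1
    have h3 : FreeGroup.map j' (FreeGroup.mk (L.map (fun p => (j p.1, p.2)))) = FreeGroup.mk L := by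
      rw [FreeGroup.map.mk, List.map_map]
      congr 1
      conv_rhs => rw [← List.map_id L]
      apply List.map_congr_left
      intro p hp
      simp [hj p hp]
    rw [← h3, h, map_one]
  · have h3 := h2.hom (FreeGroup.map j)
    rwa [FreeGroup.map.mk] at h3

theorem exists_law_nat {α : Type*} {L : List (α × Bool)} (h1 : FreeGroup.mk L ≠ 1) (h2 : IsLaw X (FreeGroup.mk L)) :
    ∃ (L' : List (ℕ × Bool)), L'.length = L.length ∧ FreeGroup.mk L' ≠ 1 ∧ IsLaw X (FreeGroup.mk L') := by
  obtain ⟨n, L', hlen, hne, hlaw⟩ := exists_law_fin h1 h2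
  refine ⟨L'.map (fun p => ((p.1 : ℕ), p.2)), by simp [hlen], ?_, ?_⟩
  · rw [← FreeGroup.map.mk (f := fun i : Fin n => (i : ℕ))]
    intro h
    apply hne
    apply FreeGroup.map_injective (f := fun i : Fin n => (i : ℕ)) Fin.val_injective
    rw [h, map_one]
  · rw [← FreeGroup.map.mk (f := fun i : Fin n => (i : ℕ))]
    exact hlaw.hom _

/-- There is a non-trivial law of length `n`. -/
def LawOfLen (X : Quasivariety.{u}) (n : ℕ) : Prop :=
  ∃ L : List (ℕ × Bool), L.length = n ∧ FreeGroup.mk L ≠ 1 ∧ IsLaw X (FreeGroup.mk L)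

/-- The minimal length of a non-trivial law (`0` if there is none). -/
noncomputable def lawLen (X : Quasivariety.{u}) : ℕ := sInf {n | LawOfLen X n}

theorem HasLaw.exists_len (h : X.HasLaw) : ∃ n, LawOfLen X n := by
  obtain ⟨n, w, hw, hlaw⟩ := h
  have h2 : IsLaw X (FreeGroup.mk w.toWord) := by
    rw [mk_toWord]; exact hlaw
  obtain ⟨L', h3, h4, h5⟩ := exists_law_nat (by rw [mk_toWord]; exact hw) h2
  exact ⟨_, L', rfl, h4, h5⟩

theorem hasLaw_of {α : Type*} {w : FreeGroup α} (hw : w ≠ 1) (h : IsLaw X w) : X.HasLaw := by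
  classical
  have h2 : IsLaw X (FreeGroup.mk w.toWord) := by
    rw [mk_toWord]; exact h
  obtain ⟨n, L', _, h4, h5⟩ := exists_law_fin (by rw [mk_toWord]; exact hw) h2
  exact ⟨n, FreeGroup.mk L', h4, h5⟩

theorem HasLaw.lawLen_spec (h : X.HasLaw) : LawOfLen X (lawLen X) :=
  Nat.sInf_mem (HasLaw.exists_len h)

theorem lawLen_le {n : ℕ} (h : LawOfLen X n) : lawLen X ≤ n := Nat.sInf_le h

theorem lawLen_le_of {α : Type*} {L : List (α × Bool)} (h1 : FreeGroup.mk L ≠ 1) (h2 : IsLaw X (FreeGroup.mk L)) :
    lawLen X ≤ L.length := by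
  obtain ⟨L', h3, h4, h5⟩ := exists_law_nat h1 h2
  exact lawLen_le ⟨L', h3, h4, h5⟩

/-! ### Shortening a law of a wreath product -/

section Shorten

variable {K : Type u} [Group K] (k : K) (x : ℕ)

/-- The top coordinate assigned to a variable. -/
noncomputable def topVal (y : ℕ) : K := if y = x then k else 1

/-- The top coordinate of a letter. -/
noncomputable def shift (a : ℕ × Bool) : K := cond a.2 (topVal k x a.1) (topVal k x a.1)⁻¹

/-- The position of a letter read at position `q`. -/
noncomputable def pos (q : K) (a : ℕ × Bool) : K := cond a.2 q ((shift k x a)⁻¹ * q)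

open Classical in
/-- The rewritten word. -/
noncomputable def rewr : K → List (ℕ × Bool) → List ((K × ℕ) × Bool)
  | _, [] => []
  | q, a :: L => (if pos k x q a = 1 ∧ a.1 = x then [] else [((pos k x q a, a.1), a.2)]) ++
      rewr ((shift k x a)⁻¹ * q) L

theorem rewr_length (L : List (ℕ × Bool)) (q : K) : (rewr k x q L).length ≤ L.length := by
  induction L generalizing q with
  | nil => simp [rewr]
  | cons a L ih =>
    simp only [rewr, List.length_append, List.length_cons]
    have := ih ((shift k x a)⁻¹ * q)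
    split_ifs <;> simp <;> omega

theorem rewr_length' (L : List (ℕ × Bool)) : (rewr k x 1 ((x, true) :: L)).length ≤ L.length := by
  simp only [rewr, List.length_append]
  rw [if_pos (by simp [pos])]
  simpa using rewr_length k x L _

theorem not_mem_rewr (L : List (ℕ × Bool)) (q : K) :
    ∀ p ∈ rewr k x q L, p.1 ≠ (1, x) := by
  induction L generalizing q with
  | nil => simp [rewr]
  | cons a L ih =>
    intro p hp
    simp only [rewr, List.mem_append] at hp
    rcases hp with hp | hp
    · split_ifs at hp with h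
      · simp at hp
      · simp only [List.mem_singleton] at hp
        rw [hp]
        intro h2
        apply h
        simp only [Prod.mk.injEq] at h2
        exact h2
    · exact ih _ p hp

open Classical in
/-- The assignment in the wreath product. -/
noncomputable def elt {V : Type u} [Group V] (S : Finset (K × ℕ)) (v : K × ℕ → V) (y : ℕ) :
    Wr V K where
  f := fun c => if (c, y) ∈ S then v (c, y) else 1
  fin := by
    apply (S.finite_toSet.image Prod.fst).subset
    intro c hc
    by_contra h
    apply hc
    have : (c, y) ∉ S := by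
      intro h2
      exact h ⟨(c, y), h2, rfl⟩
    change (if (c, y) ∈ S then v (c, y) else 1) = 1
    rw [if_neg this]
  t := topVal k x y

theorem elt_eval {V : Type u} [Group V] (S : Finset (K × ℕ)) (hS : (1, x) ∉ S) (v : K × ℕ → V)
    (L : List (ℕ × Bool)) (q : K) (hL : ∀ p ∈ rewr k x q L, p.1 ∈ S) :
    (FreeGroup.lift (elt k x S v) (FreeGroup.mk L)).f q = FreeGroup.lift v (FreeGroup.mk (rewr k x q L)) := by
  classical
  induction L generalizing q with
  | nil => rfl
  | cons a L ih =>
    have h1 : (FreeGroup.mk (a :: L) : FreeGroup ℕ) = FreeGroup.mk [a] * FreeGroup.mk L := by rw [mul_mk]; rfl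
    have h2 : (FreeGroup.mk (rewr k x q (a :: L)) : FreeGroup (K × ℕ)) =
        FreeGroup.mk (if pos k x q a = 1 ∧ a.1 = x then [] else [((pos k x q a, a.1), a.2)]) *
          FreeGroup.mk (rewr k x ((shift k x a)⁻¹ * q) L) := by
      rw [mul_mk]; rfl
    rw [h1, h2, map_mul, map_mul, Wr.mul_f]
    have hL' : ∀ p ∈ rewr k x ((shift k x a)⁻¹ * q) L, p.1 ∈ S := by
      intro p hp
      apply hL
      simp only [rewr, List.mem_append]
      exact Or.inr hp
    have ht : (FreeGroup.lift (elt k x S v) (FreeGroup.mk [a])).t = shift k x a := by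
      rw [lift_mk]
      rcases a with ⟨y, b⟩
      cases b <;> simp [shift, elt]
    rw [ht, ih _ hL']
    congr 1
    have hv : (FreeGroup.lift (elt k x S v) (FreeGroup.mk [a])).f q =
        cond a.2 ((elt k x S v a.1).f (pos k x q a)) ((elt k x S v a.1).f (pos k x q a))⁻¹ := by
      rw [lift_mk]
      rcases a with ⟨y, b⟩
      cases b <;> simp [pos, Wr.inv_f, shift, elt]
    rw [hv]
    split_ifs with hc
    · have : (elt k x S v a.1).f (pos k x q a) = 1 := by
        rw [hc.1, hc.2]
        simp [elt, hS]
      rw [this]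
      rcases a with ⟨y, b⟩
      cases b <;> simp [← one_eq_mk]
    · have hmem : (pos k x q a, a.1) ∈ S := by
        have := hL ((pos k x q a, a.1), a.2) (by
          simp only [rewr, List.mem_append]
          left
          rw [if_neg hc]
          simp)
        exact this
      have : (elt k x S v a.1).f (pos k x q a) = v (pos k x q a, a.1) := by
        simp [elt, hmem]
      rw [this, lift_mk]
      rcases a with ⟨y, b⟩
      cases b <;> simp

open Classical in
/-- The transversal elements. -/
noncomputable def tr (c : K) : FreeGroup ℕ := if c = k⁻¹ ∧ c ≠ 1 then of x else 1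

/-- The homomorphism back. -/
noncomputable def back : FreeGroup (K × ℕ) →* FreeGroup ℕ :=
  FreeGroup.lift (fun p => tr k x p.1 * of p.2 * (tr k x ((topVal k x p.2)⁻¹ * p.1))⁻¹)

theorem back_eval (hk : k ≠ 1) (L : List (ℕ × Bool)) (q : K) :
    back k x (FreeGroup.mk (rewr k x q L)) =
      tr k x q * FreeGroup.mk L * (tr k x ((FreeGroup.lift (topVal k x) (FreeGroup.mk L))⁻¹ * q))⁻¹ := by
  classical
  induction L generalizing q with
  | nil =>
    simp [rewr, ← one_eq_mk]
  | cons a L ih =>
    have h1 : (FreeGroup.mk (a :: L) : FreeGroup ℕ) = FreeGroup.mk [a] * FreeGroup.mk L := by rw [mul_mk]; rfl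
    have h2 : (FreeGroup.mk (rewr k x q (a :: L)) : FreeGroup (K × ℕ)) =
        FreeGroup.mk (if pos k x q a = 1 ∧ a.1 = x then [] else [((pos k x q a, a.1), a.2)]) *
          FreeGroup.mk (rewr k x ((shift k x a)⁻¹ * q) L) := by
      rw [mul_mk]; rfl
    rw [h1, h2, map_mul, map_mul, ih]
    have ht : FreeGroup.lift (topVal k x) (FreeGroup.mk [a]) = shift k x a := by
      rw [lift_mk]
      rcases a with ⟨y, b⟩
      cases b <;> simp [shift]
    rw [ht, mul_inv_rev, mul_assoc ((FreeGroup.lift (topVal k x)) (FreeGroup.mk L))⁻¹]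
    have key : back k x (FreeGroup.mk (if pos k x q a = 1 ∧ a.1 = x then [] else
        [((pos k x q a, a.1), a.2)])) * tr k x ((shift k x a)⁻¹ * q) = tr k x q * FreeGroup.mk [a] := by
      have hgen : back k x (FreeGroup.mk [((pos k x q a, a.1), a.2)]) * tr k x ((shift k x a)⁻¹ * q) =
          tr k x q * FreeGroup.mk [a] := by
        rcases a with ⟨y, b⟩
        cases b
        · simp only [back, lift_mk, pos, shift, List.map_cons, List.map_nil, List.prod_cons,
            List.prod_nil, cond_false, inv_inv, inv_mul_cancel_left, mul_one]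
          have : (FreeGroup.mk [(y, false)] : FreeGroup ℕ) = (of y)⁻¹ := rfl
          rw [this]
          group
        · simp only [back, lift_mk, pos, shift, List.map_cons, List.map_nil, List.prod_cons,
            List.prod_nil, cond_true, mul_one]
          have : (FreeGroup.mk [(y, true)] : FreeGroup ℕ) = (of y) := rfl
          rw [this]
          group
      split_ifs with hc
      · rw [← hgen]
        congr 1
        rw [hc.1, hc.2]
        have : back k x (of (1, x)) = 1 := by
          simp [back, topVal, tr, hk]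
        rcases a with ⟨y, b⟩
        cases b
        · have h3 : (FreeGroup.mk [((1, x), false)] : FreeGroup (K × ℕ)) = (of (1, x))⁻¹ := rfl
          rw [h3, map_inv, this, ← one_eq_mk]
          simp
        · have h3 : (FreeGroup.mk [((1, x), true)] : FreeGroup (K × ℕ)) = (of (1, x)) := rfl
          rw [h3, this, ← one_eq_mk]
          simp
      · exact hgen
    rw [← mul_assoc, ← mul_assoc, ← mul_assoc, key]
    simp only [mul_assoc]

end Shorten

/-- **Shortening lemma.** If the wreath products `Wr V K` with all finitely generated `V` in `X`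
and one fixed non-trivial `K` belong to `Y`, and `Y` has a non-trivial law, then `X` has a
shorter non-trivial law. -/
theorem lawLen_lt_of_wr (hY : Y.HasLaw) {K : Type u} [Group K] {k : K} (hk : k ≠ 1)
    (h : ∀ (V : Type u) [Group V], Group.FG V → X.Mem V → Y.Mem (Wr V K)) :
    X.HasLaw ∧ lawLen X < lawLen Y := by
  classical
  obtain ⟨L, hlen, hne, hlaw⟩ := HasLaw.lawLen_spec hY
  -- we may assume that the first letter is positive
  have hpos : ∃ (x : ℕ) (L' : List (ℕ × Bool)), L'.length + 1 = lawLen Y ∧
      FreeGroup.mk ((x, true) :: L') ≠ 1 ∧ IsLaw Y (FreeGroup.mk ((x, true) :: L')) := by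
    match L, hlen, hne, hlaw with
    | [], _, hne, _ => exact absurd rfl hne
    | (x, true) :: L', hlen, hne, hlaw => exact ⟨x, L', hlen, hne, hlaw⟩
    | (x, false) :: L', hlen, hne, hlaw =>
      let ρ : FreeGroup ℕ →* FreeGroup ℕ := FreeGroup.lift (fun i => (of i)⁻¹)
      have hρ : ∀ M : List (ℕ × Bool), ρ (FreeGroup.mk M) = FreeGroup.mk (M.map (fun p => (p.1, !p.2))) := by
        intro M
        induction M with
        | nil => rfl
        | cons a M ih =>
          have h1 : (FreeGroup.mk (a :: M) : FreeGroup ℕ) = FreeGroup.mk [a] * FreeGroup.mk M := by rw [mul_mk]; rfl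
          have h2 : (FreeGroup.mk (List.map (fun p => (p.1, !p.2)) (a :: M)) : FreeGroup ℕ) =
            FreeGroup.mk [(a.1, !a.2)] * FreeGroup.mk (M.map (fun p => (p.1, !p.2))) := by rw [mul_mk]; rfl
          rw [h1, h2, map_mul, ih]
          congr 1
          rcases a with ⟨y, b⟩
          cases b
          · have : (FreeGroup.mk [(y, false)] : FreeGroup ℕ) = (of y)⁻¹ := rfl
            rw [this, map_inv]
            simp only [ρ, lift_apply_of, inv_inv]
            rfl
          · have : (FreeGroup.mk [(y, true)] : FreeGroup ℕ) = (of y) := rfl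
            rw [this]
            simp only [ρ, lift_apply_of]
            rfl
      refine ⟨x, L'.map (fun p => (p.1, !p.2)), by simpa using hlen, ?_, ?_⟩
      · intro h1
        apply hne
        have h2 := hρ ((x, true) :: L'.map (fun p => (p.1, !p.2)))
        rw [h1, map_one] at h2
        rw [h2]
        congr 1
        simp only [List.map_cons, List.map_map, Bool.not_true, List.cons.injEq, true_and]
        conv_lhs => rw [← List.map_id L']
        apply List.map_congr_left
        intro p _
        simp
      · have h2 := hlaw.hom ρ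
        rw [hρ] at h2
        simpa using h2
  obtain ⟨x, L', hlen', hne', hlaw'⟩ := hpos
  let W := rewr k x 1 ((x, true) :: L')
  -- the top coordinate of the law is trivial
  have htop : FreeGroup.lift (topVal k x) (FreeGroup.mk ((x, true) :: L')) = 1 := by
    have h1 : Y.Mem (Wr PUnit.{u+1} K) := h PUnit.{u+1} inferInstance mem_of_subsingleton
    have h2 := hlaw' _ h1 (fun y => Wr.top PUnit.{u+1} K (topVal k x y))
    have h3 := hom_lift (Wr.proj PUnit.{u+1} K) (fun y => Wr.top PUnit.{u+1} K (topVal k x y))
      (FreeGroup.mk ((x, true) :: L'))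
    rw [h2, map_one] at h3
    exact h3.symm
  have hWne : (FreeGroup.mk W : FreeGroup (K × ℕ)) ≠ 1 := by
    intro h1
    apply hne'
    have h2 := back_eval k x hk ((x, true) :: L') 1
    change back k x (FreeGroup.mk W) = _ at h2
    rw [h1, htop, map_one] at h2
    simpa [tr] using h2.symm
  have hWlaw : IsLaw X (FreeGroup.mk W) := by
    apply IsLawFG.isLaw
    intro V _ hfg hV v
    let S : Finset (K × ℕ) := (W.map Prod.fst).toFinset
    have hS1 : ∀ p ∈ W, p.1 ∈ S := by
      intro p hp
      simp only [S, List.mem_toFinset, List.mem_map]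
      exact ⟨p, hp, rfl⟩
    have hS2 : (1, x) ∉ S := by
      intro hc
      simp only [S, List.mem_toFinset, List.mem_map] at hc
      obtain ⟨p, hp, hpx⟩ := hc
      exact not_mem_rewr k x _ 1 p hp hpx
    rw [← elt_eval k x S hS2 v ((x, true) :: L') 1 hS1]
    rw [hlaw' _ (h V hfg hV)]
    rfl
  have hle : lawLen X ≤ W.length := lawLen_le_of hWne hWlaw
  have hle2 : W.length ≤ L'.length := rewr_length' k x L'
  exact ⟨hasLaw_of hWne hWlaw, by omega⟩

end Pool.Agent.H11.QV
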