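import Mathlib

/-!
# Levi's lemma: equidivisible graded monoids are free
-/

set_option autoImplicit false

universe v

namespace Pool.Agent.H11.Levi

variable {M : Type v} [Monoid M]

/-- Irreducible elements of a monoid. -/
def Atom (M : Type v) [Monoid M] : Type v := {a : M // a ≠ 1 ∧ ∀ b c, a = b * c → b = 1 ∨ c = 1}

theorem bijective (ℓ : M → ℕ) (h1 : ∀ a b : M, b ≠ 1 → ℓ a < ℓ (a * b))
    (h2 : ∀ a b c d : M, a * b = c * d → ∃ m, (a = c * m ∧ d = m * b) ∨ (c = a * m ∧ b = m * d)) :
    Function.Bijective (FreeMonoid.lift (fun a : Atom M => a.1)) := by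
  classical
  -- monotonicity
  have hle : ∀ a b : M, ℓ a ≤ ℓ (a * b) := by
    intro a b
    by_cases hb : b = 1
    · rw [hb, mul_one]
    · exact (h1 a b hb).le
  have hmul1 : ∀ a b : M, a * b = 1 → a = 1 := by
    intro a b hab
    by_contra ha
    have h3 := h1 1 a ha
    have h4 := hle a b
    rw [hab] at h4
    rw [one_mul] at h3
    omega
  -- atoms on the left
  have hatom : ∀ x : M, x ≠ 1 → ∃ (a : Atom M) (y : M), x = a.1 * y := by
    intro x hx
    -- take a left factor of minimal length
    have hex : ∃ n, ∃ b y : M, b ≠ 1 ∧ x = b * y ∧ ℓ b = n := ⟨ℓ x, x, 1, hx, by simp, rfl⟩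
    obtain ⟨b, y, hb, hxb, hn⟩ := Nat.find_spec hex
    have hmin : ∀ b' y' : M, b' ≠ 1 → x = b' * y' → ℓ b ≤ ℓ b' := by
      intro b' y' hb' hx'
      rw [hn]
      exact Nat.find_min' hex ⟨b', y', hb', hx', rfl⟩
    refine ⟨⟨b, hb, ?_⟩, y, hxb⟩
    intro c d hcd
    by_contra hcon
    push Not at hcon
    have h3 := hmin c (d * y) hcon.1 (by rw [hxb, hcd, mul_assoc])
    have h4 := h1 c d hcon.2
    rw [← hcd] at h4
    omega
  constructor
  · -- injectivity
    intro s t
    induction s using FreeMonoid.inductionOn' generalizing t with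
    | one =>
      intro h
      induction t using FreeMonoid.inductionOn' with
      | one => rfl
      | of_mul b t _ =>
        exfalso
        rw [map_one, map_mul, FreeMonoid.lift_eval_of] at h
        exact b.2.1 (hmul1 _ _ h.symm)
    | of_mul a s ih =>
      intro h
      induction t using FreeMonoid.inductionOn' with
      | one =>
        exfalso
        rw [map_one, map_mul, FreeMonoid.lift_eval_of] at h
        exact a.2.1 (hmul1 _ _ h)
      | of_mul b t _ =>
        rw [map_mul, map_mul, FreeMonoid.lift_eval_of, FreeMonoid.lift_eval_of] at h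
        obtain ⟨m, ⟨h3, h4⟩ | ⟨h3, h4⟩⟩ := h2 _ _ _ _ h
        · have hm : m = 1 := (a.2.2 _ _ h3).resolve_left b.2.1
          rw [hm, mul_one] at h3
          rw [hm, one_mul] at h4
          have hab : a = b := Subtype.ext h3
          rw [hab, ih h4.symm]
        · have hm : m = 1 := (b.2.2 _ _ h3).resolve_left a.2.1
          rw [hm, mul_one] at h3
          rw [hm, one_mul] at h4
          have hab : a = b := Subtype.ext h3.symm
          rw [hab, ih h4]
  · -- surjectivity
    intro x
    have key : ∀ (n : ℕ) (p : FreeMonoid (Atom M)) (y : M),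
        x = FreeMonoid.lift (fun a : Atom M => a.1) p * y →
        ℓ x - ℓ (FreeMonoid.lift (fun a : Atom M => a.1) p) ≤ n →
        ∃ q, FreeMonoid.lift (fun a : Atom M => a.1) q = x := by
      intro n
      induction n with
      | zero =>
        intro p y hx hn
        by_cases hy : y = 1
        · exact ⟨p, by rw [hx, hy, mul_one]⟩
        · exfalso
          have := h1 (FreeMonoid.lift (fun a : Atom M => a.1) p) y hy
          rw [← hx] at this
          omega
      | succ n ih =>
        intro p y hx hn
        by_cases hy : y = 1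
        · exact ⟨p, by rw [hx, hy, mul_one]⟩
        · obtain ⟨a, z, haz⟩ := hatom y hy
          apply ih (p * FreeMonoid.of a) z
          · rw [map_mul, FreeMonoid.lift_eval_of, hx, haz, mul_assoc]
          · rw [map_mul, FreeMonoid.lift_eval_of]
            have h3 := h1 (FreeMonoid.lift (fun a : Atom M => a.1) p) a.1 a.2.1
            omega
    exact key (ℓ x) 1 x (by simp) (by omega)

end Pool.Agent.H11.Levi
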