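import Pool.Agent.H11.QVCore
import Pool.Agent.H11.QVLevi

/-!
# The monoid of quasivarieties with a law is free
-/

set_option autoImplicit false

universe u

namespace Pool.Agent.H11.QV

open Quasivariety

variable {A B C D : Quasivariety.{u}}

theorem exists_res_ne_one {G : Type u} [Group G] (h : ¬ D.Mem G) : ∃ k ∈ res D G, k ≠ 1 := by
  by_contra hcon
  push Not at hcon
  exact h (mem_of_res_le_bot hcon)

theorem lawLen_lt_of_not_mem (hC : C.HasLaw) (h : mul A B = mul C D)
    {H : Type u} [Group H] (hH : B.Mem H) (hH' : ¬ D.Mem H) : lawLen A < lawLen C := by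
  obtain ⟨k, hk, hk1⟩ := exists_res_ne_one hH'
  have hk1' : (⟨k, Subgroup.mem_zpowers k⟩ : Subgroup.zpowers k) ≠ 1 := by
    intro h1
    exact hk1 (congrArg Subtype.val h1)
  refine (lawLen_lt_of_wr hC hk1' ?_).2
  intro V _ hfg hV
  obtain ⟨ι, _, g, hg⟩ := embed_res_of_mem V hk hk1
  apply mem_of_injective g hg
  apply mul_mem_iff_res.1
  rw [← h]
  exact Wr.mem_mul hV (mem_prod hH (mem_pi' (MonoidHom.id _) (fun _ _ h => h) (fun _ => hH)))

/-- The quasivariety generated by the `B`-residuals of the members of `D`. -/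
def resVar (B D : Quasivariety.{u}) : Quasivariety.{u} where
  Mem := fun G _ => ∀ φ : QuasiIdentity,
    (∀ (Y : Type u) [Group Y], D.Mem Y → φ.Holds (res B Y)) → φ.Holds G
  axiomatised := ⟨{φ | ∀ (Y : Type u) [Group Y], D.Mem Y → φ.Holds (res B Y)},
    fun _ _ => Iff.rfl⟩

theorem resVar_hasLaw (hD : D.HasLaw) : (resVar B D).HasLaw := by
  obtain ⟨n, w, hw, hlaw⟩ := hD
  refine ⟨n, w, hw, fun G _ hG x => ?_⟩
  have h1 := hG ⟨n, [], w⟩ (by
    intro Y _ hY y _
    exact hlaw _ (mem_of_injective (res B Y).subtype (Subgroup.subtype_injective _) hY) y)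
  exact h1 x (by simp)

/-- Members of `resVar B D` are locally embeddable into subgroups of residuals. -/
theorem resVar_LE {G : Type u} [Group G] (hG : (resVar B D).Mem G) :
    LE (fun K _ => ∃ (Y : Type u) (_ : Group Y), D.Mem Y ∧
      ∃ g : K →* res B Y, Function.Injective g) G := by
  classical
  apply LE.of_holds
  · intro n K _ hK
    choose Y hYg hYD g hg using hK
    letI : ∀ i, Group (Y i) := hYg
    refine ⟨∀ i, Y i, inferInstance, mem_pi' (MonoidHom.id _) (fun _ _ h => h) hYD, ?_⟩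
    let f : (∀ i, K i) →* (∀ i, Y i) :=
      { toFun := fun x i => (g i (x i) : Y i)
        map_one' := by
          funext i
          simp
        map_mul' := by
          intro x y
          funext i
          simp }
    have hf : ∀ x, f x ∈ res B (∀ i, Y i) := by
      intro x
      apply Submonoid.pi_mem_of_mulSingle_mem
      intro i
      exact map_res (MonoidHom.mulSingle Y i) (g i (x i)).2
    refine ⟨f.codRestrict _ hf, ?_⟩
    intro x y hxy
    funext i
    apply hg i
    apply Subtype.ext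
    exact congrFun (congrArg Subtype.val hxy) i
  · intro φ hφ
    apply hG
    intro Y _ hY
    exact hφ _ ⟨Y, inferInstance, hY, MonoidHom.id _, fun _ _ h => h⟩

theorem le_mul_resVar {Y : Type u} [Group Y] (hY : D.Mem Y) : (mul (resVar B D) B).Mem Y := by
  rw [mul_mem_iff_res]
  intro φ hφ
  exact hφ Y hY

/-- Key step: wreath products of members of `C` with members of `resVar B D * B`. -/
theorem wr_mem (hB : B.HasLaw) (h : mul A B = mul C D)
    (hBD : ∀ (H : Type u) [Group H], B.Mem H → D.Mem H)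
    {V Z : Type u} [Group V] [Group Z] [Group.FG V] (hV : C.Mem V)
    (hZ : (mul (resVar B D) B).Mem Z) : (mul A B).Mem (Wr V Z) := by
  apply prodMem_of_hom ((QuotientGroup.mk' (res B Z)).comp (Wr.proj V Z)) mem_quot_res
  have hker : ((QuotientGroup.mk' (res B Z)).comp (Wr.proj V Z)).ker = Wr.overTop V (res B Z) := by
    ext a
    rw [MonoidHom.mem_ker, MonoidHom.comp_apply, Wr.mem_overTop]
    exact QuotientGroup.eq_one_iff _
  rw [hker]
  apply Wr.mem_overTop_of
  apply LE.wr (C := (fun K _ => ∃ (Y : Type u) (_ : Group Y), D.Mem Y ∧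
      ∃ g : K →* res B Y, Function.Injective g)) _ (resVar_LE (mul_mem_iff_res.1 hZ))
  rintro K _ ⟨Y, _, hY, g, hg⟩
  obtain ⟨H, _, hH, hemb⟩ := embed_res hB V
  obtain ⟨e, he⟩ := hemb Y
  apply mem_of_injective (Wr.mapTop g hg) (Wr.mapTop_injective g hg)
  apply mem_of_injective e he
  apply mul_mem_iff_res.1
  rw [h]
  exact Wr.mem_mul hV (mem_prod hY (hBD H hH))

theorem mul_resVar_le (hB : B.HasLaw) (hC : C.HasLaw) (h : mul A B = mul C D)
    (hBD : ∀ (H : Type u) [Group H], B.Mem H → D.Mem H)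
    {Y : Type u} [Group Y] (hY : (mul (resVar B D) B).Mem Y) : D.Mem Y := by
  by_contra hcon
  obtain ⟨k, hk, hk1⟩ := exists_res_ne_one hcon
  have hk1' : (⟨k, Subgroup.mem_zpowers k⟩ : Subgroup.zpowers k) ≠ 1 := by
    intro h1
    exact hk1 (congrArg Subtype.val h1)
  have := (lawLen_lt_of_wr (X := C) hC hk1' (by
    intro V _ hfg hV
    obtain ⟨ι, _, g, hg⟩ := embed_res_of_mem V hk hk1
    apply mem_of_injective g hg
    apply mul_mem_iff_res.1
    rw [← h]
    exact wr_mem hB h hBD hV (mem_prod hY (mem_pi' (MonoidHom.id _) (fun _ _ h => h)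
      (fun _ => hY))))).2
  exact lt_irrefl _ this

theorem le_of_mul_eq (hB : B.HasLaw) (h : mul A B = mul C B)
    {G : Type u} [Group G] (hG : A.Mem G) : C.Mem G := by
  apply mem_of_fg
  intro V hfg
  haveI : Group.FG V := (Group.fg_iff_subgroup_fg V).2 hfg
  have hV : A.Mem V := mem_of_injective V.subtype (Subgroup.subtype_injective V) hG
  obtain ⟨H, _, hH, hemb⟩ := embed_res hB V
  obtain ⟨e, he⟩ := hemb PUnit.{u+1}
  have h1 : C.Mem (Wr V (res B PUnit.{u+1})) := by
    apply mem_of_injective e he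
    apply mul_mem_iff_res.1
    rw [← h]
    exact Wr.mem_mul hV (mem_prod mem_of_subsingleton hH)
  apply mem_of_injective (Wr.single (V := V) (1 : res B PUnit.{u+1})) _ h1
  intro a b hab
  have h2 := congrArg (fun w : Wr V (res B PUnit.{u+1}) => w.f 1) hab
  simpa using h2

theorem cancel_right (hB : B.HasLaw) (h : mul A B = mul C B) : A = C := by
  apply ext_mem
  intro G _
  exact ⟨fun hG => le_of_mul_eq hB h hG, fun hG => le_of_mul_eq hB h.symm hG⟩

theorem equidiv_aux (hB : B.HasLaw) (hC : C.HasLaw) (hD : D.HasLaw) (h : mul A B = mul C D)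
    (hBD : ∀ (H : Type u) [Group H], B.Mem H → D.Mem H) :
    ∃ M : Quasivariety.{u}, M.HasLaw ∧ A = mul C M ∧ D = mul M B := by
  refine ⟨resVar B D, resVar_hasLaw hD, ?_, ?_⟩
  · have hDM : D = mul (resVar B D) B := by
      apply ext_mem
      intro G _
      exact ⟨fun hG => le_mul_resVar hG, fun hG => mul_resVar_le hB hC h hBD hG⟩
    apply cancel_right hB
    rw [mul_assoc', ← hDM, h]
  · apply ext_mem
    intro G _
    exact ⟨fun hG => le_mul_resVar hG, fun hG => mul_resVar_le hB hC h hBD hG⟩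

/-- The product of quasivarieties with a law is equidivisible. -/
theorem equidiv (hA : A.HasLaw) (hB : B.HasLaw) (hC : C.HasLaw) (hD : D.HasLaw)
    (h : mul A B = mul C D) :
    ∃ M : Quasivariety.{u}, M.HasLaw ∧
      ((A = mul C M ∧ D = mul M B) ∨ (C = mul A M ∧ B = mul M D)) := by
  by_cases hBD : ∀ (H : Type u) [Group H], B.Mem H → D.Mem H
  · obtain ⟨M, hM, h1, h2⟩ := equidiv_aux hB hC hD h hBD
    exact ⟨M, hM, Or.inl ⟨h1, h2⟩⟩
  · by_cases hDB : ∀ (H : Type u) [Group H], D.Mem H → B.Mem H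
    · obtain ⟨M, hM, h1, h2⟩ := equidiv_aux hD hA hB h.symm hDB
      exact ⟨M, hM, Or.inr ⟨h1, h2⟩⟩
    · exfalso
      push Not at hBD hDB
      obtain ⟨H, _, hH1, hH2⟩ := hBD
      obtain ⟨K, _, hK1, hK2⟩ := hDB
      have h1 := lawLen_lt_of_not_mem hC h hH1 hH2
      have h2 := lawLen_lt_of_not_mem hA h.symm hK1 hK2
      omega

theorem lawLen_lt_mul (hAB : (mul A B).HasLaw) (hB : B ≠ triv) : lawLen A < lawLen (mul A B) := by
  have hex : ∃ (K : Type u) (_ : Group K), B.Mem K ∧ ∃ k : K, k ≠ 1 := by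
    by_contra hcon
    push Not at hcon
    apply hB
    apply ext_mem
    intro G _
    constructor
    · intro hG
      refine ⟨fun a b => ?_⟩
      rw [hcon G inferInstance hG a, hcon G inferInstance hG b]
    · intro hG
      have : Subsingleton G := hG
      exact mem_of_subsingleton
  obtain ⟨K, _, hK, k, hk⟩ := hex
  exact (lawLen_lt_of_wr hAB hk (fun V _ _ hV => Wr.mem_mul hV hK)).2

theorem triv_hasLaw : (triv.{u}).HasLaw := by
  refine ⟨1, FreeGroup.of 0, FreeGroup.of_ne_one 0, fun G _ hG x => ?_⟩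
  have : Subsingleton G := hG
  exact Subsingleton.elim _ _

/-- The quasivarieties with a non-trivial law. -/
abbrev QL : Type (u + 1) := {X : Quasivariety.{u} // X.HasLaw}

instance : Monoid QL.{u} where
  mul X Y := ⟨mul X.1 Y.1, HasLaw.mul X.2 Y.2⟩
  one := ⟨triv, triv_hasLaw⟩
  mul_assoc X Y Z := Subtype.ext mul_assoc'
  one_mul X := Subtype.ext one_mul'
  mul_one X := Subtype.ext mul_one'

theorem coe_mul (X Y : QL.{u}) : (X * Y).1 = mul X.1 Y.1 := rfl

theorem coe_one : (1 : QL.{u}).1 = triv := rfl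

theorem free_bijective :
    Function.Bijective (FreeMonoid.lift (fun a : Levi.Atom QL.{u} => a.1)) := by
  apply Levi.bijective (fun X : QL.{u} => lawLen X.1)
  · intro X Y hY
    apply lawLen_lt_mul (HasLaw.mul X.2 Y.2)
    intro h
    exact hY (Subtype.ext h)
  · intro X Y Z W h
    obtain ⟨M, hM, h1⟩ := equidiv X.2 Y.2 Z.2 W.2 (congrArg Subtype.val h)
    refine ⟨⟨M, hM⟩, ?_⟩
    rcases h1 with ⟨h1, h2⟩ | ⟨h1, h2⟩
    · exact Or.inl ⟨Subtype.ext h1, Subtype.ext h2⟩
    · exact Or.inr ⟨Subtype.ext h1, Subtype.ext h2⟩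

/-- The monoid of quasivarieties of groups with a non-trivial law is free. -/
theorem main : ∃ α : Type (u + 1), Nonempty (FreeMonoid α ≃* QL.{u}) :=
  ⟨Levi.Atom QL.{u}, ⟨MulEquiv.ofBijective _ free_bijective⟩⟩

end Pool.Agent.H11.QV
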