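import Pool.Agent.H11.QVBasic

/-!
# Residuals and products of quasivarieties
-/

set_option autoImplicit false

universe u

namespace Pool.Agent.H11.QV

open Quasivariety

/-- The `Y`-residual of `G`: the elements killed by every homomorphism to a member of `Y`. -/
def res (Y : Quasivariety.{u}) (G : Type u) [Group G] : Subgroup G where
  carrier := {g | ∀ (H : Type u) [Group H], Y.Mem H → ∀ φ : G →* H, φ g = 1}
  mul_mem' := by
    intro a b ha hb H _ hH φ
    rw [map_mul, ha H hH φ, hb H hH φ, one_mul]
  one_mem' := by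
    intro H _ _ φ
    exact map_one φ
  inv_mem' := by
    intro a ha H _ hH φ
    rw [map_inv, ha H hH φ, inv_one]

variable {X Y Z : Quasivariety.{u}} {G H : Type u} [Group G] [Group H]

theorem mem_res {g : G} :
    g ∈ res Y G ↔ ∀ (H : Type u) [Group H], Y.Mem H → ∀ φ : G →* H, φ g = 1 := Iff.rfl

theorem res_le_ker (hH : Y.Mem H) (φ : G →* H) : res Y G ≤ φ.ker :=
  fun _ hg => hg H hH φ

theorem map_res (f : G →* H) {g : G} (hg : g ∈ res Y G) : f g ∈ res Y H :=
  fun K _ hK φ => hg K hK (φ.comp f)

instance res_normal : (res Y G).Normal := ⟨by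
  intro n hn g H _ hH φ
  rw [map_mul, map_mul, hn H hH φ]
  simp⟩

theorem res_le_of_quot (N : Subgroup G) [N.Normal] (h : Y.Mem (G ⧸ N)) : res Y G ≤ N := by
  intro g hg
  have := hg _ h (QuotientGroup.mk' N)
  exact (QuotientGroup.eq_one_iff g).1 this

theorem mem_quot_ker (hH : Y.Mem H) (φ : G →* H) : Y.Mem (G ⧸ φ.ker) :=
  mem_of_injective (QuotientGroup.kerLift φ) (QuotientGroup.kerLift_injective φ) hH

theorem mem_quot_res : Y.Mem (G ⧸ res Y G) := by
  let ι := {N : Subgroup G // ∃ _ : N.Normal, Y.Mem (G ⧸ N)}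
  let hn : ∀ N : ι, N.1.Normal := fun N => N.2.1
  let f : G →* (∀ N : ι, G ⧸ N.1) := MonoidHom.pi (fun N => QuotientGroup.mk' N.1)
  have hker : f.ker = res Y G := by
    ext g
    constructor
    · intro hg H _ hH φ
      have h1 : f g = 1 := hg
      have h2 := congrFun h1 ⟨φ.ker, inferInstance, mem_quot_ker hH φ⟩
      exact (QuotientGroup.eq_one_iff g).1 h2
    · intro hg
      change f g = 1
      funext N
      obtain ⟨hN, hY⟩ := N.2
      exact hg _ hY (QuotientGroup.mk' N.1)
  have h1 : Y.Mem (∀ N : ι, G ⧸ N.1) := mem_pi (fun N => by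
    obtain ⟨hN, hY⟩ := N.2
    exact hY)
  have h2 := mem_quot_ker h1 f
  rw [← mem_congr (QuotientGroup.quotientMulEquivOfEq hker)]
  exact h2

theorem mem_iff_res_eq_bot : Y.Mem G ↔ res Y G = ⊥ := by
  constructor
  · intro h
    rw [eq_bot_iff]
    intro g hg
    exact hg G h (MonoidHom.id G)
  · intro h
    have h1 : Y.Mem (G ⧸ res Y G) := mem_quot_res
    have h2 : Function.Injective (QuotientGroup.mk' (res Y G)) := by
      rw [← MonoidHom.ker_eq_bot_iff, QuotientGroup.ker_mk', h]
    exact mem_of_injective _ h2 h1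

theorem mem_of_res_le_bot (h : ∀ g ∈ res Y G, g = 1) : Y.Mem G := by
  rw [mem_iff_res_eq_bot, eq_bot_iff]
  exact h

/-- Values of laws lie in the residual. -/
theorem law_mem_res {α : Type*} {w : FreeGroup α}
    (hw : ∀ (K : Type u) [Group K], Y.Mem K → ∀ x : α → K, FreeGroup.lift x w = 1)
    (x : α → G) : FreeGroup.lift x w ∈ res Y G := by
  intro K _ hK φ
  rw [hom_lift]
  exact hw K hK _

/-- Membership in the residual is a finitary condition. -/
theorem exists_res {g : G} (hg : g ∈ res Y G) :
    ∃ E : Finset G, ∀ (H : Type u) [Group H] (θ : G → H), MulOn θ E → θ g ∈ res Y H := by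
  classical
  let T : Subgroup G :=
    { carrier := {g | ∃ E : Finset G, ∀ (H : Type u) [Group H] (θ : G → H),
        MulOn θ E → θ g ∈ res Y H}
      mul_mem' := by
        rintro a b ⟨E1, h1⟩ ⟨E2, h2⟩
        refine ⟨E1 ∪ E2 ∪ {a, b}, fun H _ θ hθ => ?_⟩
        rw [hθ a (by simp) b (by simp)]
        exact mul_mem (h1 H θ (hθ.mono (by intro y hy; simp [hy])))
          (h2 H θ (hθ.mono (by intro y hy; simp [hy])))
      one_mem' := by
        refine ⟨{1}, fun H _ θ hθ => ?_⟩
        rw [hθ.one (by simp)]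
        exact one_mem _
      inv_mem' := by
        rintro a ⟨E1, h1⟩
        refine ⟨E1 ∪ {1, a, a⁻¹}, fun H _ θ hθ => ?_⟩
        rw [hθ.inv (by simp) (by simp) (by simp)]
        exact inv_mem (h1 H θ (hθ.mono (by intro y hy; simp [hy]))) }
  have hT : T.Normal := ⟨by
    rintro a ⟨E1, h1⟩ c
    refine ⟨E1 ∪ {1, a, c, c⁻¹, c * a}, fun H _ θ hθ => ?_⟩
    rw [hθ (c * a) (by simp) c⁻¹ (by simp), hθ c (by simp) a (by simp),
      hθ.inv (by simp) (by simp) (by simp)]
    exact res_normal.conj_mem _ (h1 H θ (hθ.mono (by intro y hy; simp [hy]))) _⟩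
  have hmem : Y.Mem (G ⧸ T) := by
    obtain ⟨Φ, hΦ⟩ := Y.axiomatised
    rw [hΦ]
    intro φ hφ x hx
    choose y hy using fun i => QuotientGroup.mk'_surjective T (x i)
    have hxy : x = (QuotientGroup.mk' T) ∘ y := by
      funext i; exact (hy i).symm
    have hval : ∀ w : FreeGroup (Fin φ.n), FreeGroup.lift x w = 1 ↔ FreeGroup.lift y w ∈ T := by
      intro w
      rw [hxy, ← hom_lift, QuotientGroup.mk'_apply]
      exact QuotientGroup.eq_one_iff _
    rw [hval]
    -- collect the finite sets of the premises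
    have hprem : ∃ E : Finset G, ∀ (H : Type u) [Group H] (θ : G → H), MulOn θ E →
        ∀ w ∈ φ.prem, θ (FreeGroup.lift y w) ∈ res Y H := by
      have : ∀ w ∈ φ.prem, FreeGroup.lift y w ∈ T := fun w hw => (hval w).1 (hx w hw)
      revert this
      generalize φ.prem = L
      intro hL
      induction L with
      | nil => exact ⟨∅, fun H _ θ _ w hw => by simp at hw⟩
      | cons a L ih =>
        obtain ⟨E1, h1⟩ := ih (fun w hw => hL w (by simp [hw]))
        obtain ⟨E2, h2⟩ := hL a (by simp)
        refine ⟨E1 ∪ E2, fun H _ θ hθ w hw => ?_⟩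
        rcases List.mem_cons.1 hw with rfl | hw
        · exact h2 H θ (hθ.mono (by intro y hy; simp [hy]))
        · exact h1 H θ (hθ.mono (by intro y hy; simp [hy])) w hw
    obtain ⟨E1, h1⟩ := hprem
    obtain ⟨E2, h2⟩ := exists_eval_list.{u} y (φ.concl :: φ.prem)
    refine ⟨E1 ∪ E2, fun H _ θ hθ => ?_⟩
    have h1' := h1 H θ (hθ.mono (by intro y hy; simp [hy]))
    have h2' := h2 H θ (hθ.mono (by intro y hy; simp [hy]))
    rw [← h2' φ.concl (by simp)]
    -- use that the quasi-identity holds in `H ⧸ res Y H`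
    have hq : φ.Holds (H ⧸ res Y H) := (hΦ _).1 mem_quot_res φ hφ
    have h3 := hq ((QuotientGroup.mk' (res Y H)) ∘ (θ ∘ y)) (by
      intro w hw
      rw [← hom_lift, h2' w (by simp [hw])]
      exact (QuotientGroup.eq_one_iff _).2 (h1' w hw))
    rw [← hom_lift] at h3
    exact (QuotientGroup.eq_one_iff _).1 h3
  exact res_le_of_quot T hmem hg

/-! ### Products -/

/-- Membership in the product class: `G` has a normal subgroup in `X` with quotient in `Y`. -/
def ProdMem (X Y : Quasivariety.{u}) (G : Type u) [Group G] : Prop :=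
  ∃ N : Subgroup G, ∃ _ : N.Normal, X.Mem N ∧ Y.Mem (G ⧸ N)

theorem prodMem_iff_res : ProdMem X Y G ↔ X.Mem (res Y G) := by
  constructor
  · rintro ⟨N, hN, hX, hY⟩
    exact mem_of_injective (Subgroup.inclusion (res_le_of_quot N hY))
      (Subgroup.inclusion_injective _) hX
  · intro h
    exact ⟨res Y G, inferInstance, h, mem_quot_res⟩

theorem prodMem_of_hom (φ : G →* H) (hH : Y.Mem H) (hX : X.Mem φ.ker) : ProdMem X Y G :=
  ⟨φ.ker, inferInstance, hX, mem_quot_ker hH φ⟩

theorem ProdMem.of_LE (h : LE (fun K _ => ProdMem X Y K) G) : ProdMem X Y G := by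
  classical
  rw [prodMem_iff_res]
  apply LE.mem
  intro E
  -- for each element of `E`, the finite set witnessing that it is in the residual
  choose F hF using fun g : res Y G => exists_res g.2
  let E1 : Finset G := E.image Subtype.val
  let E2 : Finset G := E.biUnion F
  obtain ⟨K, hK, hKC, θ, hθ, hinj⟩ := h (E1 ∪ E2)
  refine ⟨res Y K, inferInstance, prodMem_iff_res.1 hKC, ?_⟩
  have hres : ∀ g ∈ E, θ (g : G) ∈ res Y K := by
    intro g hg
    apply hF g K θ
    apply hθ.mono
    intro y hy
    simp only [Finset.mem_union]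
    right
    simp only [E2, Finset.mem_biUnion]
    exact ⟨g, hg, hy⟩
  refine ⟨fun g => if hg : θ (g : G) ∈ res Y K then ⟨θ g, hg⟩ else 1, ?_, ?_⟩
  · intro a ha b hb
    have h1 : θ ((a * b : res Y G) : G) = θ a * θ b := by
      rw [Subgroup.coe_mul]
      exact hθ a (by simp [E1, ha]) b (by simp [E1, hb])
    have h2 : θ ((a * b : res Y G) : G) ∈ res Y K := by
      rw [h1]; exact mul_mem (hres a ha) (hres b hb)
    simp only [h2, hres a ha, hres b hb, dif_pos]
    apply Subtype.ext
    exact h1
  · intro a ha b hb hab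
    simp only [Finset.mem_coe] at ha hb
    simp only [hres a ha, hres b hb, dif_pos, Subtype.mk.injEq] at hab
    apply Subtype.ext
    exact hinj (by simp [E1, ha]) (by simp [E1, hb]) hab

theorem ProdMem.pi {ι : Type u} {G : ι → Type u} [∀ i, Group (G i)]
    (h : ∀ i, ProdMem X Y (G i)) : ProdMem X Y (∀ i, G i) := by
  let f : (∀ i, G i) →* (∀ i, G i ⧸ res Y (G i)) :=
    { toFun := fun x i => QuotientGroup.mk (x i)
      map_one' := rfl
      map_mul' := fun _ _ => rfl }
  apply prodMem_of_hom f (mem_pi (fun i => mem_quot_res))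
  have hx : ∀ (x : f.ker) (i : ι), x.1 i ∈ res Y (G i) := by
    intro x i
    have h1 : f x.1 = 1 := x.2
    exact (QuotientGroup.eq_one_iff _).1 (congrFun h1 i)
  let g : f.ker →* (∀ i, res Y (G i)) :=
    { toFun := fun x i => ⟨x.1 i, hx x i⟩
      map_one' := rfl
      map_mul' := fun _ _ => rfl }
  apply mem_of_injective g
  · intro x y hxy
    apply Subtype.ext
    funext i
    exact congrArg Subtype.val (congrFun hxy i)
  · exact mem_pi (fun i => prodMem_iff_res.1 (h i))

theorem ProdMem.fin {n : ℕ} {G : Fin n → Type u} [∀ i, Group (G i)]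
    (h : ∀ i, ProdMem X Y (G i)) : ProdMem X Y (∀ i, G i) := by
  let f : (∀ i, G i) →* (∀ i, G i ⧸ res Y (G i)) :=
    { toFun := fun x i => QuotientGroup.mk (x i)
      map_one' := rfl
      map_mul' := fun _ _ => rfl }
  apply prodMem_of_hom f (mem_pi' (MonoidHom.id _) (fun _ _ h => h) (fun i => mem_quot_res))
  have hx : ∀ (x : f.ker) (i : Fin n), x.1 i ∈ res Y (G i) := by
    intro x i
    have h1 : f x.1 = 1 := x.2
    exact (QuotientGroup.eq_one_iff _).1 (congrFun h1 i)
  let g : f.ker →* (∀ i, res Y (G i)) :=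
    { toFun := fun x i => ⟨x.1 i, hx x i⟩
      map_one' := rfl
      map_mul' := fun _ _ => rfl }
  apply mem_pi' g
  · intro x y hxy
    apply Subtype.ext
    funext i
    exact congrArg Subtype.val (congrFun hxy i)
  · exact fun i => prodMem_iff_res.1 (h i)

/-- The product of two quasivarieties. -/
def mul (X Y : Quasivariety.{u}) : Quasivariety.{u} where
  Mem := fun G _ => ProdMem X Y G
  axiomatised := axiomatised_of_LE (C := fun G _ => ProdMem X Y G)
    (fun _ _ _ h => ProdMem.fin h) (fun _ _ h => ProdMem.of_LE h)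

@[simp] theorem mul_mem : (mul X Y).Mem G ↔ ProdMem X Y G := Iff.rfl

theorem mul_mem_iff_res : (mul X Y).Mem G ↔ X.Mem (res Y G) := prodMem_iff_res

/-- The quasivariety of trivial groups. -/
def triv : Quasivariety.{u} where
  Mem := fun G _ => Subsingleton G
  axiomatised := by
    refine ⟨{⟨1, [], FreeGroup.of 0⟩}, fun G _ => ⟨?_, ?_⟩⟩
    · intro h φ _
      exact QuasiIdentity.Holds.of_subsingleton
    · intro h
      have h1 := h _ rfl
      refine ⟨fun a b => ?_⟩
      have ha := h1 (fun _ => a) (by simp)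
      have hb := h1 (fun _ => b) (by simp)
      simp only [FreeGroup.lift_apply_of] at ha hb
      rw [ha, hb]

@[simp] theorem triv_mem : triv.Mem G ↔ Subsingleton G := Iff.rfl

theorem one_mul' : mul triv X = X := by
  apply ext_mem
  intro G _
  rw [mul_mem_iff_res, triv_mem, mem_iff_res_eq_bot]
  constructor
  · intro h
    rw [Subgroup.eq_bot_iff_forall]
    intro x hx
    exact congrArg Subtype.val (Subsingleton.elim (⟨x, hx⟩ : res X G) 1)
  · intro h
    refine ⟨fun a b => Subtype.ext ?_⟩
    rw [Subgroup.eq_bot_iff_forall] at h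
    rw [h a a.2, h b b.2]

theorem mul_one' : mul X triv = X := by
  apply ext_mem
  intro G _
  rw [mul_mem_iff_res]
  have : res triv G = ⊤ := by
    rw [eq_top_iff]
    intro g _ H _ hH φ
    have : Subsingleton H := hH
    exact Subsingleton.elim _ _
  rw [this]
  exact mem_congr Subgroup.topEquiv

theorem mul_assoc' : mul (mul X Y) Z = mul X (mul Y Z) := by
  apply ext_mem
  intro G _
  -- the iterated residual as a subgroup of `G`
  let R : Subgroup (res Z G) := res Y (res Z G)
  let N : Subgroup G := R.map (res Z G).subtype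
  have hN : N.Normal := by
    refine ⟨?_⟩
    rintro _ ⟨n, hn, rfl⟩ g
    -- conjugation by `g` restricted to the residual
    let c : res Z G →* res Z G :=
      ((MulAut.conj g).toMonoidHom.comp (res Z G).subtype).codRestrict (res Z G) (by
        intro x
        exact res_normal.conj_mem _ x.2 g)
    exact ⟨c n, map_res c hn, rfl⟩
  have hle1 : N ≤ res (mul Y Z) G := by
    rintro _ ⟨n, hn, rfl⟩ H _ hH φ
    have hH' : Y.Mem (res Z H) := mul_mem_iff_res.1 hH
    let ψ : res Z G →* res Z H := (φ.comp (res Z G).subtype).codRestrict (res Z H) (by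
      intro x
      exact map_res φ x.2)
    have := hn _ hH' ψ
    exact congrArg Subtype.val this
  have hmem : (mul Y Z).Mem (G ⧸ N) := by
    have hNle : N ≤ res Z G := by
      rintro _ ⟨n, _, rfl⟩
      exact n.2
    let π : G ⧸ N →* G ⧸ res Z G := QuotientGroup.map N (res Z G) (MonoidHom.id G) hNle
    apply prodMem_of_hom π mem_quot_res
    -- the kernel is a quotient of the residual by `R`
    let q : res Z G →* π.ker := ((QuotientGroup.mk' N).comp (res Z G).subtype).codRestrict π.ker (by
      intro x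
      change π (QuotientGroup.mk (x : G)) = 1
      exact (QuotientGroup.eq_one_iff (x : G)).2 x.2)
    have hq : Function.Surjective q := by
      rintro ⟨y, hy⟩
      obtain ⟨g, rfl⟩ := QuotientGroup.mk'_surjective N y
      have hg : g ∈ res Z G := (QuotientGroup.eq_one_iff g).1 hy
      exact ⟨⟨g, hg⟩, rfl⟩
    have hker : q.ker = R := by
      ext x
      constructor
      · intro hx
        have h1 : q x = 1 := hx
        have h2 : (QuotientGroup.mk (x : G) : G ⧸ N) = 1 := congrArg Subtype.val h1
        obtain ⟨y, hy, hyx⟩ := (QuotientGroup.eq_one_iff (x : G)).1 h2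
        have : y = x := Subtype.ext hyx
        rw [← this]
        exact hy
      · intro hx
        apply Subtype.ext
        exact (QuotientGroup.eq_one_iff (x : G)).2 ⟨x, hx, rfl⟩
    have e : (res Z G ⧸ R) ≃* π.ker :=
      (QuotientGroup.quotientMulEquivOfEq hker.symm).trans
        (QuotientGroup.quotientKerEquivOfSurjective q hq)
    rw [← mem_congr e]
    exact mem_quot_res
  have hle2 : res (mul Y Z) G ≤ N := res_le_of_quot N hmem
  have heq : res (mul Y Z) G = N := le_antisymm hle2 hle1
  rw [mul_mem_iff_res, mul_mem_iff_res, mul_mem_iff_res, heq]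
  exact mem_congr (R.equivMapOfInjective (res Z G).subtype (Subgroup.subtype_injective _))

end Pool.Agent.H11.QV
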