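import Pool.Agent.H11.QVProd

/-!
# Restricted wreath products
-/

set_option autoImplicit false

universe u

namespace Pool.Agent.H11.QV

open Quasivariety

/-- The restricted regular wreath product of `V` by `H`. -/
@[ext]
structure Wr (V H : Type u) [Group V] [Group H] where
  /-- the base coordinate -/
  f : H → V
  /-- finite support -/
  fin : (Function.mulSupport f).Finite
  /-- the top coordinate -/
  t : H

namespace Wr

variable {V H K : Type u} [Group V] [Group H] [Group K]

instance : Mul (Wr V H) := ⟨fun a b =>
  { f := fun c => a.f c * b.f (a.t⁻¹ * c)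
    fin := by
      apply (a.fin.union (b.fin.image (fun d => a.t * d))).subset
      intro c hc
      by_contra hcon
      simp only [Set.mem_union, not_or, Function.mem_mulSupport, not_not] at hcon
      apply hc
      have h2 : b.f (a.t⁻¹ * c) = 1 := by
        by_contra h3
        exact hcon.2 ⟨a.t⁻¹ * c, h3, by simp⟩
      change a.f c * b.f (a.t⁻¹ * c) = 1
      rw [hcon.1, h2, one_mul]
    t := a.t * b.t }⟩

instance : One (Wr V H) := ⟨{ f := fun _ => 1, fin := by simp [Function.mulSupport_fun_one], t := 1 }⟩

instance : Inv (Wr V H) := ⟨fun a =>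
  { f := fun c => (a.f (a.t * c))⁻¹
    fin := by
      apply (a.fin.image (fun d => a.t⁻¹ * d)).subset
      intro c hc
      refine ⟨a.t * c, ?_, by simp⟩
      intro h
      exact hc (by simp [h])
    t := a.t⁻¹ }⟩

theorem mul_f (a b : Wr V H) (c : H) : (a * b).f c = a.f c * b.f (a.t⁻¹ * c) := rfl
@[simp] theorem mul_t (a b : Wr V H) : (a * b).t = a.t * b.t := rfl
@[simp] theorem one_f (c : H) : (1 : Wr V H).f c = 1 := rfl
@[simp] theorem one_t : (1 : Wr V H).t = 1 := rfl
theorem inv_f (a : Wr V H) (c : H) : (a⁻¹).f c = (a.f (a.t * c))⁻¹ := rfl
@[simp] theorem inv_t (a : Wr V H) : (a⁻¹).t = a.t⁻¹ := rfl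

theorem ext' {a b : Wr V H} (hf : ∀ c, a.f c = b.f c) (ht : a.t = b.t) : a = b :=
  Wr.ext (funext hf) ht

instance : Group (Wr V H) := Group.ofLeftAxioms
  (by
    intro a b c
    apply ext'
    · intro d
      simp only [mul_f, mul_t, mul_inv_rev, mul_assoc]
    · simp [mul_assoc])
  (by
    intro a
    apply ext'
    · intro d
      simp [mul_f]
    · simp)
  (by
    intro a
    apply ext'
    · intro d
      simp [mul_f, inv_f]
    · simp)

/-- The projection to the top group. -/
def proj (V H : Type u) [Group V] [Group H] : Wr V H →* H where
  toFun := Wr.t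
  map_one' := rfl
  map_mul' := fun _ _ => rfl

@[simp] theorem proj_apply (a : Wr V H) : proj V H a = a.t := rfl

/-- The embedding of the top group. -/
def top (V H : Type u) [Group V] [Group H] : H →* Wr V H where
  toFun := fun h => { f := fun _ => 1, fin := by simp [Function.mulSupport_fun_one], t := h }
  map_one' := rfl
  map_mul' := by
    intro a b
    apply ext'
    · intro d; simp [mul_f]
    · rfl

@[simp] theorem top_f (h c : H) : (top V H h).f c = 1 := rfl
@[simp] theorem top_t (h : H) : (top V H h).t = h := rfl

open Classical in
/-- The base element with value `v` at `c` and trivial elsewhere. -/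
noncomputable def single (c : H) : V →* Wr V H where
  toFun := fun v =>
    { f := fun d => if d = c then v else 1
      fin := by
        apply (Set.finite_singleton c).subset
        intro d hd
        by_contra h
        apply hd
        change (if d = c then v else 1) = 1
        exact if_neg h
      t := 1 }
  map_one' := by
    apply ext'
    · intro d
      simp
    · rfl
  map_mul' := by
    intro a b
    apply ext'
    · intro d
      simp only [mul_f, inv_one, one_mul]
      split_ifs <;> simp
    · simp

@[simp] theorem single_f_self (c : H) (v : V) : (single c v).f c = v := by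
  simp [single]

theorem single_f_of_ne {c d : H} (h : d ≠ c) (v : V) : (single c v).f d = 1 := by
  simp [single, h]

open Classical in
theorem single_f (c d : H) (v : V) : (single c v).f d = if d = c then v else 1 := by
  simp [single]

@[simp] theorem single_t (c : H) (v : V) : (single c v).t = 1 := rfl

theorem conj_single (h c : H) (v : V) :
    top V H h * single c v * (top V H h)⁻¹ = single (h * c) v := by
  classical
  apply ext'
  · intro d
    simp only [mul_f, top_f, top_t, one_mul, mul_t, single_t, mul_one, inv_f, single_f]
    simp only [inv_one, mul_one]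
    congr 1
    simp only [eq_iff_iff]
    constructor
    · intro h1; rw [← h1]; simp
    · intro h1; rw [h1]; simp
  · simp

theorem mem_ker_proj (a : Wr V H) : a ∈ (proj V H).ker ↔ a.t = 1 := Iff.rfl

/-- Restricted wreath products belong to the product class. -/
theorem mem_mul {X Y : Quasivariety.{u}} (hV : X.Mem V) (hH : Y.Mem H) :
    (mul X Y).Mem (Wr V H) := by
  apply prodMem_of_hom (proj V H) hH
  let g : (proj V H).ker →* (H → V) :=
    { toFun := fun a => a.1.f
      map_one' := rfl
      map_mul' := by
        intro a b
        funext c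
        have ha : a.1.t = 1 := a.2
        simp [mul_f, ha] }
  apply mem_of_injective g
  · intro a b hab
    apply Subtype.ext
    apply ext'
    · intro c
      exact congrFun hab c
    · rw [(mem_ker_proj _).1 a.2, (mem_ker_proj _).1 b.2]
  · exact mem_pi (fun _ => hV)

/-- Push forward of the top group along an injective homomorphism. -/
noncomputable def mapTop (j : K →* H) (hj : Function.Injective j) : Wr V K →* Wr V H where
  toFun := fun a =>
    { f := Function.extend j a.f (fun _ => 1)
      fin := by
        apply (a.fin.image j).subset
        intro c hc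
        by_cases h : ∃ k, j k = c
        · obtain ⟨k, rfl⟩ := h
          refine ⟨k, ?_, rfl⟩
          intro h1
          apply hc
          rw [hj.extend_apply]
          exact h1
        · exfalso
          apply hc
          rw [Function.extend_apply' _ _ _ h]
      t := j a.t }
  map_one' := by
    apply ext'
    · intro c
      by_cases h : ∃ k, j k = c
      · obtain ⟨k, rfl⟩ := h
        simp only [hj.extend_apply]
        rfl
      · simp only [Function.extend_apply' _ _ _ h]
        rfl
    · simp
  map_mul' := by
    intro a b
    apply ext'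
    · intro c
      simp only [mul_f]
      by_cases h : ∃ k, j k = c
      · obtain ⟨k, rfl⟩ := h
        rw [hj.extend_apply, hj.extend_apply, ← map_inv, ← map_mul, hj.extend_apply, mul_f]
      · rw [Function.extend_apply' _ _ _ h, Function.extend_apply' _ _ _ h, one_mul]
        have h' : ¬ ∃ k, j k = (j a.t)⁻¹ * c := by
          rintro ⟨k, hk⟩
          exact h ⟨a.t * k, by rw [map_mul, hk]; simp⟩
        rw [Function.extend_apply' _ _ _ h']
    · simp

theorem mapTop_t (j : K →* H) (hj : Function.Injective j) (a : Wr V K) :
    (mapTop j hj a).t = j a.t := rfl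

theorem mapTop_f (j : K →* H) (hj : Function.Injective j) (a : Wr V K) (k : K) :
    (mapTop j hj a).f (j k) = a.f k := by
  change Function.extend j a.f (fun _ => 1) (j k) = a.f k
  exact hj.extend_apply _ _ _

theorem mapTop_f' (j : K →* H) (hj : Function.Injective j) (a : Wr V K) {c : H}
    (h : ¬ ∃ k, j k = c) :
    (mapTop j hj a).f c = 1 := by
  change Function.extend j a.f (fun _ => 1) c = 1
  exact Function.extend_apply' _ _ _ h

theorem mapTop_injective (j : K →* H) (hj : Function.Injective j) :
    Function.Injective (mapTop (V := V) j hj) := by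
  intro a b hab
  apply ext'
  · intro k
    rw [← mapTop_f j hj a k, hab, mapTop_f]
  · apply hj
    rw [← mapTop_t j hj a, hab, mapTop_t]

/-- The elements of `Wr V H` with top coordinate in the subgroup `K`. -/
def overTop (V : Type u) [Group V] (K : Subgroup H) : Subgroup (Wr V H) := K.comap (proj V H)

theorem mem_overTop {K : Subgroup H} {a : Wr V H} : a ∈ overTop V K ↔ a.t ∈ K := Iff.rfl

/-- `overTop V K` embeds into a power of `Wr V K`. -/
theorem mem_overTop_of {X : Quasivariety.{u}} (K : Subgroup H) (h : X.Mem (Wr V K)) :
    X.Mem (overTop V K) := by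
  let g : overTop V K →* (H → Wr V K) :=
    { toFun := fun a y =>
        { f := fun c => a.1.f (c * y)
          fin := by
            apply Set.Finite.of_finite_image (f := fun c : K => (c : H) * y)
            · apply a.1.fin.subset
              rintro _ ⟨c, hc, rfl⟩
              exact hc
            · intro c _ d _ hcd
              exact Subtype.ext (mul_right_cancel hcd)
          t := ⟨a.1.t, a.2⟩ }
      map_one' := rfl
      map_mul' := by
        intro a b
        funext y
        apply ext'
        · intro c
          simp [mul_f, mul_assoc]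
        · rfl }
  apply mem_pi' g _ (fun _ => h)
  intro a b hab
  apply Subtype.ext
  apply ext'
  · intro c
    have h1 := congrFun hab c
    have h2 := congrArg (fun z : Wr V K => z.f 1) h1
    simpa [g] using h2
  · have h1 := congrFun hab 1
    exact congrArg (fun z : Wr V K => (z.t : H)) h1

/-- Local embeddability of the top group passes to wreath products. -/
theorem _root_.Pool.Agent.H11.QV.LE.wr {C : (G : Type u) → [Group G] → Prop}
    {X : Quasivariety.{u}} (hC : ∀ (K : Type u) [Group K], C K → X.Mem (Wr V K))
    (hH : LE C H) : X.Mem (Wr V H) := by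
  classical
  apply LE.mem
  intro E
  -- supports, tops and the identity
  let T : Finset H := E.biUnion (fun a => a.fin.toFinset ∪ {a.t, 1})
  let EH : Finset H := T ∪ (T ×ˢ T).image (fun p => p.1 * p.2)
  obtain ⟨K, hK, hCK, θ, hθ, hinj⟩ := hH EH
  refine ⟨Wr V K, inferInstance, hC K hCK, ?_⟩
  have hT : ∀ a ∈ T, a ∈ EH := fun a ha => by simp [EH, ha]
  have hTT : ∀ a ∈ T, ∀ b ∈ T, a * b ∈ EH := by
    intro a ha b hb
    simp only [EH, Finset.mem_union, Finset.mem_image, Finset.mem_product]
    exact Or.inr ⟨(a, b), ⟨ha, hb⟩, rfl⟩
  have hsupp : ∀ a ∈ E, ∀ c, a.f c ≠ 1 → c ∈ T := by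
    intro a ha c hc
    simp only [T, Finset.mem_biUnion]
    exact ⟨a, ha, by simp [hc]⟩
  have htop : ∀ a ∈ E, a.t ∈ T := by
    intro a ha
    simp only [T, Finset.mem_biUnion]
    exact ⟨a, ha, by simp⟩
  have hθT : ∀ a ∈ T, ∀ b ∈ T, θ (a * b) = θ a * θ b := fun a ha b hb =>
    hθ a (hT a ha) b (hT b hb)
  -- the push forward of functions
  let F : (H → V) → (K → V) := fun f c' =>
    if h : ∃ c ∈ EH, θ c = c' then f (Classical.choose h) else 1
  have hF1 : ∀ (f : H → V) (c : H), c ∈ EH → F f (θ c) = f c := by
    intro f c hc
    have h : ∃ c1 ∈ EH, θ c1 = θ c := ⟨c, hc, rfl⟩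
    have hs := Classical.choose_spec h
    have : Classical.choose h = c := hinj hs.1 hc hs.2
    simp only [F]
    rw [dif_pos h, this]
  have hF2 : ∀ (f : H → V) (c' : K), (¬ ∃ c ∈ EH, θ c = c') → F f c' = 1 := by
    intro f c' h
    simp only [F]
    rw [dif_neg h]
  let Θ : Wr V H → Wr V K := fun a =>
    { f := F a.f
      fin := by
        apply (EH.finite_toSet.image θ).subset
        intro c' hc'
        by_contra h
        apply hc'
        apply hF2
        rintro ⟨c, hc, rfl⟩
        exact h ⟨c, hc, rfl⟩
      t := θ a.t }
  refine ⟨Θ, ?_, ?_⟩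
  · intro a ha b hb
    apply ext'
    · intro c'
      rw [mul_f]
      change F (a * b).f c' = F a.f c' * F b.f ((θ a.t)⁻¹ * c')
      by_cases h : ∃ c ∈ EH, θ c = c'
      · obtain ⟨c, hc, rfl⟩ := h
        rw [hF1 _ c hc, hF1 _ c hc, mul_f]
        congr 1
        by_cases hb1 : b.f (a.t⁻¹ * c) = 1
        · rw [hb1]
          symm
          by_contra hne
          by_cases h2 : ∃ d ∈ EH, θ d = (θ a.t)⁻¹ * θ c
          · obtain ⟨d, hd, hdθ⟩ := h2
            rw [← hdθ, hF1 _ d hd] at hne
            have hdT : d ∈ T := hsupp b hb d hne
            have h3 : θ (a.t * d) = θ c := by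
              rw [hθT _ (htop a ha) _ hdT, hdθ]
              simp
            have h4 : a.t * d = c := hinj (hTT _ (htop a ha) _ hdT) hc h3
            rw [← h4] at hb1
            simp only [inv_mul_cancel_left] at hb1
            exact hne hb1
          · exact hne (hF2 _ _ h2)
        · have hdT : a.t⁻¹ * c ∈ T := hsupp b hb _ hb1
          have h3 : θ c = θ a.t * θ (a.t⁻¹ * c) := by
            rw [← hθT _ (htop a ha) _ hdT]
            simp
          have h4 : (θ a.t)⁻¹ * θ c = θ (a.t⁻¹ * c) := by
            rw [h3]; simp
          rw [h4, hF1 _ _ (hT _ hdT)]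
      · rw [hF2 _ _ h, hF2 _ _ h, one_mul]
        symm
        by_contra hne
        by_cases h2 : ∃ d ∈ EH, θ d = (θ a.t)⁻¹ * c'
        · obtain ⟨d, hd, hdθ⟩ := h2
          rw [← hdθ, hF1 _ d hd] at hne
          have hdT : d ∈ T := hsupp b hb d hne
          apply h
          refine ⟨a.t * d, hTT _ (htop a ha) _ hdT, ?_⟩
          rw [hθT _ (htop a ha) _ hdT, hdθ]
          simp
        · exact hne (hF2 _ _ h2)
    · exact hθT _ (htop a ha) _ (htop b hb)
  · intro a ha b hb hab
    have ha' : a ∈ E := ha
    have hb' : b ∈ E := hb
    apply ext'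
    · intro c
      by_cases hc : c ∈ EH
      · have h1 : F a.f (θ c) = F b.f (θ c) := congrFun (congrArg Wr.f hab) (θ c)
        rw [hF1 _ c hc, hF1 _ c hc] at h1
        exact h1
      · have h1 : a.f c = 1 := by
          by_contra hne
          exact hc (hT _ (hsupp a ha' c hne))
        have h2 : b.f c = 1 := by
          by_contra hne
          exact hc (hT _ (hsupp b hb' c hne))
        rw [h1, h2]
    · have h1 : θ a.t = θ b.t := congrArg Wr.t hab
      exact hinj (hT _ (htop a ha')) (hT _ (htop b hb')) h1

/-- If all coordinates `single c (a.f c)` of a base element `a` lie in a subgroup, so does `a`. -/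
theorem mem_of_single_mem (R : Subgroup (Wr V H)) (a : Wr V H) (ha : a.t = 1)
    (h : ∀ c, single c (a.f c) ∈ R) : a ∈ R := by
  classical
  have key : ∀ (S : Finset H) (b : Wr V H), b.t = 1 → (∀ c, single c (b.f c) ∈ R) →
      (∀ c, b.f c ≠ 1 → c ∈ S) → b ∈ R := by
    intro S
    induction S using Finset.induction_on with
    | empty =>
      intro b hb1 _ hb3
      have : b = 1 := by
        apply ext'
        · intro c
          by_contra hne
          exact absurd (hb3 c hne) (by simp)
        · exact hb1
      rw [this]
      exact one_mem R
    | insert s S hs ih =>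
      intro b hb1 hb2 hb3
      have h1 : (single s (b.f s))⁻¹ * b ∈ R := by
        have hval : ∀ c, ((single s (b.f s))⁻¹ * b).f c = if c = s then 1 else b.f c := by
          intro c
          simp only [mul_f, inv_f, single_t, one_mul, inv_t, inv_one, single_f]
          split_ifs with hc
          · rw [hc]; simp
          · simp
        apply ih
        · simp [hb1]
        · intro c
          rw [hval]
          split_ifs with hc
          · rw [map_one]; exact one_mem R
          · exact hb2 c
        · intro c hc
          rw [hval] at hc
          split_ifs at hc with hcs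
          · exact absurd rfl hc
          · have := hb3 c hc
            rw [Finset.mem_insert] at this
            exact this.resolve_left hcs
      have h2 := R.mul_mem (hb2 s) h1
      rwa [mul_inv_cancel_left] at h2
  exact key a.fin.toFinset a ha h (by intro c hc; simp [hc])

end Wr

end Pool.Agent.H11.QV
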